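import Mathlib
import Pool.Agent.Lib.MP_4ffbf9_nt.PR.Final

set_option autoImplicit false

namespace Pool.Agent.Lib.MP_4ffbf9_nt.EF

open MvPolynomial Pool.Agent.Subspace Pool.Agent.Lib.MP_4ffbf9_nt.PR

/-- The point `q` satisfies a polynomial relation of size `L`. -/
def Rel {d : ℕ} (L : ℕ) (q : Fin d → ℚ) : Prop :=
  ∃ Ω : MvPolynomial (Fin d) ℤ, Ω ≠ 0 ∧ Ω.totalDegree ≤ L ∧ l1 Ω ≤ 2 ^ L ∧ aeval q Ω = 0

theorem Rel.mono {d L L' : ℕ} {q : Fin d → ℚ} (h : Rel L q) (hL : L ≤ L') : Rel L' q := by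
  obtain ⟨Ω, h0, h1, h2, h3⟩ := h
  exact ⟨Ω, h0, h1.trans hL, h2.trans (pow_le_pow_right₀ one_le_two hL), h3⟩

/-- The specialisation of the coefficients at `q`. -/
noncomputable def sp {d : ℕ} (q : Fin d → ℚ) (Q : Polynomial (MvPolynomial (Fin d) ℤ)) :
    Polynomial ℚ := Q.map (eval₂Hom (Int.castRingHom ℚ) q)

/-- `y` is a simple root of a small polynomial over `q`. -/
structure Good {d : ℕ} (L : ℕ) (q : Fin d → ℚ) (y : ℚ)
    (Q : Polynomial (MvPolynomial (Fin d) ℤ)) : Prop where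
  deg : Q.natDegree ≤ L
  cdeg : ∀ k, (Q.coeff k).totalDegree ≤ L
  cl : ∀ k, l1 (Q.coeff k) ≤ 4 ^ L
  root : (sp q Q).eval y = 0
  simple : (Polynomial.derivative (sp q Q)).eval y ≠ 0
  lead : eval₂Hom (Int.castRingHom ℚ) q Q.leadingCoeff ≠ 0

end Pool.Agent.Lib.MP_4ffbf9_nt.EF
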