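import Mathlib
import Pool.Agent.Lib.MP_4ffbf9_nt.EF.Defs

set_option autoImplicit false

namespace Pool.Agent.Lib.MP_4ffbf9_nt.EF

open MvPolynomial Pool.Agent.Subspace Pool.Agent.Lib.MP_4ffbf9_nt.PR

/-- `PR.amb_siegel` with the explicit constant. -/
theorem amb_siegel_eff {ι : Type} [Fintype ι] (L k : ℕ)
    (hk : 4 * (2 * Fintype.card ι * L) ^ Fintype.card ι ≤ k + 1) :
    ∀ n : ℕ, 1 ≤ n → ∀ e₁ e₂ e₃ : ι →₀ ℕ, ∑ i, e₁ i = n → ∑ i, e₂ i = n →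
      ∑ i, e₃ i = n → ∃ F : Fin (k + 1) × Fin (k + 1) → MvPolynomial ι ℤ, (∃ s, F s ≠ 0) ∧
        (∀ s, ∀ ν ∈ (F s).support, ∑ i, ν i ≤ n / 2) ∧ 
        (∀ s, l1 (F s) ≤ ((2 : ℝ) ^ (5 * k + 5)) ^ n) ∧
        ∀ l ≤ 2 * k, ∀ ν ∈ (shift (fun _ => (1 : ℤ)) (ambP e₁ e₂ e₃ F l)).support,
          L * n ≤ ∑ i, ν i := by
  classical
  intro n hn e₁ e₂ e₃ h₁ h₂ h₃
  obtain ⟨N, hN⟩ : ∃ N, N = Fintype.card ι := ⟨_, rfl⟩
  have hN0 : 0 < N := by
    rw [hN, Fintype.card_pos_iff]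
    by_contra h
    rw [not_nonempty_iff] at h
    simp at h₁; omega
  obtain ⟨r, hr⟩ : ∃ r, r = n / (2 * N) := ⟨_, rfl⟩
  have hr1 : n ≤ 2 * N * (r + 1) := by
    rw [hr]; exact (Nat.lt_mul_div_succ n (by omega)).le
  have hr2 : 2 * (N * r) ≤ n := by
    rw [hr, ← mul_assoc]; exact Nat.mul_div_le _ _
  let fs : {m : ℕ} → (ι → Fin m) → ι →₀ ℕ := fun ν =>
    Finsupp.equivFunOnFinite.symm fun i => (ν i : ℕ)
  have hfs : ∀ ν : ι → Fin (r + 1), ∑ i, fs ν i ≤ N * r := fun ν => by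
    rw [hN, ← Finset.card_univ, ← smul_eq_mul]
    exact Finset.sum_le_card_nsmul _ _ _ fun i _ => Nat.lt_succ_iff.mp (ν i).2
  let A : Matrix (Fin (2 * k + 1) × (ι → Fin (L * n)))
      ((Fin (k + 1) × Fin (k + 1)) × (ι → Fin (r + 1))) ℤ := fun e b =>
    coeff (fs e.2) (shift (fun _ => (1 : ℤ))
      (monomial (bex e₁ e₂ e₃ b.1 + fs b.2) ((upol b.1).coeff e.1)))
  have hcard : Fintype.card ((Fin (k + 1) × Fin (k + 1)) × (ι → Fin (r + 1))) =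
      (k + 1) ^ 2 * (r + 1) ^ N := by simp [hN, sq]
  have hrN : (r + 1) ^ N ≤ 2 ^ n :=
    (Nat.pow_le_pow_left (Nat.lt_two_pow_self (n := r)) N).trans (by
      rw [← pow_mul]; exact Nat.pow_le_pow_right (by norm_num) (by nlinarith))
  have hrN' : ((r : ℝ) + 1) ^ N ≤ 2 ^ n := by exact_mod_cast hrN
  have hk2 : ((k : ℝ) + 1) ≤ 2 ^ k := by exact_mod_cast Nat.lt_two_pow_self (n := k)
  obtain ⟨p, hp0, hp, hpB⟩ := siegel_half A (B := 2 ^ (k + (2 * k * n + n)))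
    (by
      rw [hcard]
      simp only [Fintype.card_prod, Fintype.card_fin, Fintype.card_fun, ← hN]
      rw [← hN] at hk
      calc 2 * ((2 * k + 1) * (L * n) ^ N) ≤ 4 * (k + 1) * (L * (2 * N * (r + 1))) ^ N := by
            rw [← mul_assoc]
            exact Nat.mul_le_mul (by omega) (Nat.pow_le_pow_left (Nat.mul_le_mul_left _ hr1) _)
        _ = (k + 1) * (4 * (2 * N * L) ^ N) * (r + 1) ^ N := by
            rw [show L * (2 * N * (r + 1)) = 2 * N * L * (r + 1) by ring, mul_pow]; ring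
        _ ≤ (k + 1) * (k + 1) * (r + 1) ^ N := by gcongr
        _ = _ := by ring)
    (by rw [hcard]; positivity) (one_le_pow₀ (by norm_num))
    (fun e b => by
      refine le_trans ?_ ((norm_coeff_le_l1 _ (fs e.2)).trans ((l1_shift_one
        (monomial (bex e₁ e₂ e₃ b.1 + fs b.2) ((upol b.1).coeff e.1)) (D := 2 * k * n + n)
          fun μ hμ => ?_).trans ?_))
      · rw [Int.norm_eq_abs]
      · rw [Finset.mem_singleton.mp (support_monomial_subset hμ)]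
        simp only [Finsupp.add_apply, Finset.sum_add_distrib, sum_bex h₁ h₂ h₃]
        have := hfs b.2
        omega
      · rw [l1_monomial, Int.norm_eq_abs, pow_add 2 k]
        exact mul_le_mul_of_nonneg_right ((abs_coeff_up _ _ _).trans (pow_le_pow_right₀
          (by norm_num) (Nat.lt_succ_iff.mp b.1.2.2))) (by positivity))
  have hinj : Function.Injective (fs (m := r + 1)) := fun ν ν' h =>
    funext fun i => Fin.ext (DFunLike.congr_fun h i)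
  refine ⟨fun s => ∑ ν, monomial (fs ν) (p (s, ν)), ?_, ?_, ?_, ?_⟩
  · obtain ⟨b, hb⟩ := Function.ne_iff.mp hp0
    refine ⟨b.1, fun h => hb ?_⟩
    have := congrArg (coeff (fs b.2)) h
    rw [coeff_sum, Finset.sum_eq_single b.2 (fun ν _ hν => by
      rw [coeff_monomial, if_neg fun h' => hν (hinj h')]) (by simp)] at this
    simpa using this
  · intro s μ hμ
    obtain ⟨ν, -, hν⟩ := Finset.mem_biUnion.mp (support_sum hμ)
    rw [Finset.mem_singleton.mp (support_monomial_subset hν)]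
    have := hfs ν
    omega
  · intro s
    refine (l1_sum_le _ _).trans ?_
    calc _ ≤ ∑ _ν : ι → Fin (r + 1),
          ((2 : ℝ) ^ k) ^ 2 * 2 ^ n * 2 ^ (k + (2 * k * n + n)) := by
          refine Finset.sum_le_sum fun ν _ => ?_
          rw [l1_monomial, Int.norm_eq_abs]
          refine (hpB _).trans ?_
          rw [hcard]
          push_cast
          gcongr
      _ ≤ 2 ^ n * (((2 : ℝ) ^ k) ^ 2 * 2 ^ n * 2 ^ (k + (2 * k * n + n))) := by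
          rw [Finset.sum_const, Finset.card_univ, nsmul_eq_mul, Fintype.card_fun, Fintype.card_fin,
            ← hN]
          push_cast
          gcongr
      _ ≤ _ := by
          rw [← pow_mul, ← pow_add, ← pow_add, ← pow_add, ← pow_mul]
          exact pow_le_pow_right₀ (by norm_num) (by nlinarith)
  · intro l hl μ hμ
    by_contra hlt
    have hμ' : ∀ i, μ i < L * n := fun i =>
      (Finset.single_le_sum (f := μ) (fun _ _ => Nat.zero_le _) (Finset.mem_univ i)).trans_lt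
        (not_le.mp hlt)
    have h := congrFun hp (⟨l, by omega⟩, fun i => ⟨μ i, hμ' i⟩)
    have e : fs (fun i => (⟨μ i, hμ' i⟩ : Fin (L * n))) = μ := by ext i; rfl
    simp only [Matrix.mulVec, dotProduct, A, e, Pi.zero_apply] at h
    refine mem_support_iff.mp hμ ?_
    rw [Fintype.sum_prod_type] at h
    rw [← h, ambP, map_sum, coeff_sum]
    refine Finset.sum_congr rfl fun s _ => ?_
    rw [Finset.mul_sum, map_sum, coeff_sum]
    refine Finset.sum_congr rfl fun ν _ => ?_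
    rw [monomial_mul, mul_comm _ (p _), ← C_mul_monomial, map_mul, ← algebraMap_eq,
      AlgHom.commutes, algebraMap_eq, coeff_C_mul, mul_comm]

/-- `PR.amb` with explicit constants. -/
theorem amb_eff (ι : Type) [Fintype ι] (J k : ℕ) (hJ : 1 ≤ J)
    (hk : 4 * (2 * Fintype.card ι * (2 * J + 1)) ^ Fintype.card ι ≤ k + 1)
    (n h a b c : ℕ) (x : ι → ℕ) (e₁ e₂ e₃ : ι →₀ ℕ) (hn : 1 ≤ n)
    (hh : 2 ^ (J + 20 * k + 40) ≤ h) (hw : ∀ i, |(x i : ℝ) / h - 1| ^ J * h ≤ 1)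
    (h₁ : ∑ i, e₁ i = n) (h₂ : ∑ i, e₂ i = n) (h₃ : ∑ i, e₃ i = n) (hc : 0 < c)
    (he : a * ∏ i, x i ^ e₁ i + b * ∏ i, x i ^ e₂ i = c * ∏ i, x i ^ e₃ i)
    (hck : c ^ (4 * k) ≤ h ^ n)
    (hg : Nat.gcd (∏ i, x i ^ e₂ i) (∏ i, x i ^ e₃ i) ^ 4 ≤ h ^ n) :
    ∃ w : Fin (2 * k + 1) → MvPolynomial ι ℤ,
      (∀ l, (w l).totalDegree ≤ (2 * k + 1) * n) ∧ (∀ l, l1 (w l) ≤ 2 ^ ((10 * k + 6) * n)) ∧
      (∃ l, eval (fun i => (x i : ℚ) / h) (map (Int.castRingHom ℚ) (w l)) ≠ 0) ∧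
      IdxGe (fun _ => (1 : ℝ)) (((n + 1) / 2 : ℕ) : ℝ) (shift (fun i => (x i : ℚ) / h)
        (∑ l : Fin (2 * k + 1),
          C ((-((a * ∏ i, x i ^ e₁ i : ℕ) : ℚ) / ((c * ∏ i, x i ^ e₃ i : ℕ) : ℚ)) ^ (l : ℕ)) *
            map (Int.castRingHom ℚ) (w l))) := by
  classical
  have hS := amb_siegel_eff (ι := ι) (2 * J + 1) k hk
  obtain ⟨K₀, hK₀e⟩ : ∃ K₀ : ℝ, K₀ = 2 ^ (5 * k + 5) := ⟨_, rfl⟩
  have hK₀ : 1 ≤ K₀ := hK₀e ▸ one_le_pow₀ (by norm_num)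
  rw [← hK₀e] at hS
  obtain ⟨K₁, hK₁⟩ : ∃ K₁ : ℝ, K₁ = (k + 1) ^ 2 * 2 ^ k * K₀ := ⟨_, rfl⟩
  have hk1 : (1 : ℝ) ≤ (k + 1) ^ 2 * 2 ^ k := one_le_mul_of_one_le_of_one_le
    (one_le_pow₀ (by linarith [Nat.cast_nonneg (α := ℝ) k])) (one_le_pow₀ (by norm_num))
  have hK₁1 : 1 ≤ K₁ := hK₁ ▸ one_le_mul_of_one_le_of_one_le hk1 hK₀
  have hk2 : ((k : ℝ) + 1) ≤ 2 ^ k := by exact_mod_cast Nat.lt_two_pow_self (n := k)
  have hK₁b : K₁ ≤ 2 ^ (8 * k + 5) := by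
    calc K₁ ≤ (2 ^ k) ^ 2 * 2 ^ k * 2 ^ (5 * k + 5) := by rw [hK₁, hK₀e]; gcongr
      _ = _ := by ring
  have hh₀ : (2 : ℝ) ^ J + (8 * K₀) ^ 4 +
      4 ^ k * (2 * ((2 * k + 1) * (4 ^ (2 * k + 1) * K₁))) < h := by
    have q1 : (2 : ℝ) ^ J ≤ 2 ^ (J + 20 * k + 32) := pow_le_pow_right₀ (by norm_num) (by omega)
    have q2 : (8 * K₀) ^ 4 ≤ 2 ^ (J + 20 * k + 32) := by
      calc _ = (2 : ℝ) ^ (20 * k + 32) := by rw [hK₀e]; ring
        _ ≤ _ := pow_le_pow_right₀ (by norm_num) (by omega)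
    have q3 : 4 ^ k * (2 * ((2 * k + 1) * (4 ^ (2 * k + 1) * K₁))) ≤ 2 ^ (J + 20 * k + 32) := by
      calc _ ≤ (4 : ℝ) ^ k * (2 * ((2 * 2 ^ k) * (4 ^ (2 * k + 1) * 2 ^ (8 * k + 5)))) := by
            gcongr; linarith
        _ = 2 ^ (15 * k + 9) := by
            rw [show (4 : ℝ) = 2 ^ 2 by norm_num, ← pow_mul, ← pow_mul]; ring
        _ ≤ _ := pow_le_pow_right₀ (by norm_num) (by omega)
    have q4 : (2 : ℝ) ^ (J + 20 * k + 40) ≤ h := by exact_mod_cast hh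
    have q5 : (0 : ℝ) < 2 ^ (J + 20 * k + 32) := by positivity
    rw [show J + 20 * k + 40 = J + 20 * k + 32 + 8 by ring, pow_add] at q4
    linarith
  have p1 : (0 : ℝ) < 2 ^ J := by positivity
  have p2 : (0 : ℝ) < (8 * K₀) ^ 4 := by positivity
  have p3 : (0 : ℝ) < 4 ^ k * (2 * ((2 * k + 1) * (4 ^ (2 * k + 1) * K₁))) := by positivity
  have hR : (0 : ℝ) < h := by linarith
  have hN : 0 < h := by exact_mod_cast hR
  obtain ⟨η, η0, η1, hη, hp⟩ : ∃ η : ℝ, 0 ≤ η ∧ η ≤ 1 / 2 ∧ η ^ J * h ≤ 1 ∧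
      ∀ i, |(x i : ℝ) / h - 1| ≤ η := by
    have : Nonempty ι := by
      by_contra h0
      rw [not_nonempty_iff] at h0
      simp at h₁; omega
    obtain ⟨i, hi⟩ := Finite.exists_max fun i => |(x i : ℝ) / h - 1|
    refine ⟨_, abs_nonneg _, ?_, hw i, hi⟩
    refine le_of_not_gt fun h0 => ?_
    have h4 : (1 / 2 : ℝ) ^ J * 2 ^ J < |(x i : ℝ) / h - 1| ^ J * h :=
      mul_lt_mul'' (pow_lt_pow_left₀ h0 (by norm_num) (by omega)) (by linarith) (by positivity)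
        p1.le
    rw [← mul_pow] at h4
    norm_num at h4
    linarith [hw i]
  have hx : ∀ i, h ≤ 2 * x i ∧ x i ≤ 2 * h := fun i => by
    obtain ⟨h4, h5⟩ := abs_le.mp ((hp i).trans η1)
    have h6 : (1 / 2 : ℝ) ≤ x i / h := by linarith
    have h7 : (x i : ℝ) / h ≤ 2 := by linarith
    rw [le_div_iff₀ hR] at h6
    rw [div_le_iff₀ hR] at h7
    exact ⟨by exact_mod_cast (by linarith : (h : ℝ) ≤ 2 * x i), by exact_mod_cast h7⟩
  have hx0 : ∀ i, 0 < x i := fun i => by have := (hx i).1; omega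
  obtain ⟨F, hF0, hF, hFl, hFv⟩ := hS n hn e₁ e₂ e₃ h₁ h₂ h₃
  have hPd : ∀ l, ∀ ν ∈ (ambP e₁ e₂ e₃ F l).support, ∑ i, ν i ≤ (2 * k + 1) * n := fun l ν hν => by
    have := ambP_deg h₁ h₂ h₃ hF l ν hν
    rw [add_mul]; omega
  have hPl : ∀ l, l1 (ambP e₁ e₂ e₃ F l) ≤ K₁ ^ n := fun l => (ambP_l1 e₁ e₂ e₃ hFl l).trans (by
    rw [hK₁, mul_pow _ K₀]
    exact mul_le_mul_of_nonneg_right (le_self_pow₀ hk1 (by omega)) (by positivity))
  have hd2 : ((h : ℝ) ^ (n / 2)) ^ 2 ≤ h ^ n := by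
    rw [← pow_mul]; exact pow_le_pow_right₀ (by exact_mod_cast hN) (by omega)
  obtain ⟨κ, hκ, l₀, hl₀, hne⟩ := amb_jet h₁ h₂ h₃ hN hx0 (fun i => (hx i).2) hF0 hF hFl (by
    have h4 := half_pow_le (fun i => (hx i).1) h₃
    have h5 : ((Nat.gcd (∏ i, x i ^ e₂ i) (∏ i, x i ^ e₃ i) : ℕ) : ℝ) ^ 4 ≤ h ^ n := by
      exact_mod_cast hg
    generalize ((Nat.gcd (∏ i, x i ^ e₂ i) (∏ i, x i ^ e₃ i) : ℕ) : ℝ) = g at h5 ⊢
    have h6 : (4 : ℝ) ^ (n / 2) ≤ 4 ^ n := pow_le_pow_right₀ (by norm_num) (by omega)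
    refine lt_of_mul_lt_mul_left (a := 2 ^ n) (lt_of_lt_of_le ?_ h4) (by positivity)
    refine lt_of_pow_lt_pow_left₀ 4 (by positivity) ?_
    calc _ = (2 ^ n * 4 ^ (n / 2) * K₀ ^ n) ^ 4 * (((h : ℝ) ^ (n / 2)) ^ 2) ^ 2 * g ^ 4 := by ring
      _ ≤ (2 ^ n * 4 ^ n * K₀ ^ n) ^ 4 * ((h : ℝ) ^ n) ^ 2 * h ^ n := by gcongr
      _ = ((8 * K₀) ^ 4) ^ n * ((h : ℝ) ^ n) ^ 3 := by
          rw [← mul_pow, ← mul_pow, ← pow_mul, ← pow_mul (8 * K₀), mul_comm 4 n]; ring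
      _ < (h : ℝ) ^ n * ((h : ℝ) ^ n) ^ 3 := by
          gcongr; linarith
      _ = _ := by ring)
  refine ⟨fun l => hasse κ (ambP e₁ e₂ e₃ F l), fun l => ?_, fun l => ?_, ⟨⟨l₀, by omega⟩, ?_⟩, ?_⟩
  · refine Finset.sup_le fun ν hν => ?_
    have := hPd l _ (mem_support_hasse hν)
    simp only [Finsupp.add_apply, Finset.sum_add_distrib] at this
    rw [Finsupp.sum_fintype _ _ (by simp)]
    omega
  · refine (l1_hasse_le κ _ (hPd l)).trans ?_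
    calc _ ≤ 2 ^ ((2 * k + 1) * n) * ((2 : ℝ) ^ (8 * k + 5)) ^ n := by
          gcongr
          exact (hPl l).trans (pow_le_pow_left₀ (by linarith) hK₁b n)
      _ = _ := by rw [← pow_mul, ← pow_add]; congr 1; ring
  · rwa [map_hasse, ← coeff_shift]
  have hint := amb_int (k := k) h₁ h₂ h₃ hN hc hx0 he hF
  have hu : |((-((a * ∏ i, x i ^ e₁ i : ℕ) : ℚ) / ((c * ∏ i, x i ^ e₃ i : ℕ) : ℚ) : ℚ) : ℝ)| ≤ 1 := by
    rw [← he, Rat.cast_div, Rat.cast_neg, Rat.cast_natCast, Rat.cast_natCast, abs_div, abs_neg,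
      Nat.abs_cast, Nat.abs_cast]
    exact div_le_one_of_le₀ (by exact_mod_cast Nat.le_add_right _ _) (Nat.cast_nonneg _)
  generalize (-((a * ∏ i, x i ^ e₁ i : ℕ) : ℚ) / ((c * ∏ i, x i ^ e₃ i : ℕ) : ℚ)) = u at hint hu ⊢
  have hvan : IdxGe (fun _ => (1 : ℝ)) ((n + 1 : ℕ) : ℝ) (shift (fun i => (x i : ℚ) / h)
      (∑ l : Fin (2 * k + 1), C (u ^ (l : ℕ)) * map (Int.castRingHom ℚ) (ambP e₁ e₂ e₃ F l))) := by
    rw [ord_iff]
    intro ν hν
    by_contra hlt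
    obtain ⟨N, hN'⟩ := hint ν
    have hco : |((coeff ν (shift (fun i => (x i : ℚ) / h) (∑ l : Fin (2 * k + 1),
        C (u ^ (l : ℕ)) * map (Int.castRingHom ℚ) (ambP e₁ e₂ e₃ F l))) : ℚ) : ℝ)| ≤
        (2 * k + 1) * (4 ^ ((2 * k + 1) * n) * K₁ ^ n * η ^ (J * (2 * n))) := by
      rw [map_sum, coeff_sum, Rat.cast_sum]
      refine (Finset.abs_sum_le_sum_abs _ _).trans ((Finset.sum_le_card_nsmul _ _
        (4 ^ ((2 * k + 1) * n) * K₁ ^ n * η ^ (J * (2 * n))) fun l _ => ?_).trans (by simp))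
      rw [map_mul, ← algebraMap_eq, AlgHom.commutes, algebraMap_eq, coeff_C_mul, Rat.cast_mul,
        abs_mul, Rat.cast_pow, abs_pow]
      refine (mul_le_of_le_one_left (abs_nonneg _) (pow_le_one₀ (abs_nonneg _) hu)).trans ?_
      refine (taylor_small _ (hPd l) (hFv l (Nat.lt_succ_iff.mp l.2)) _ η0 (by linarith)
        (fun i => by simpa using hp i) ν (t := J * (2 * n)) (by nlinarith)).trans ?_
      gcongr
      exact hPl l
    have hν0 := mem_support_iff.mp hν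
    generalize coeff ν (shift (fun i => (x i : ℚ) / h) (∑ l : Fin (2 * k + 1),
        C (u ^ (l : ℕ)) * map (Int.castRingHom ℚ) (ambP e₁ e₂ e₃ F l))) = q at hN' hco hν0
    have hN0 : N ≠ 0 := by
      rintro rfl
      have : (∏ i, ((x i : ℚ) / h) ^ ν i) ≠ 0 :=
        Finset.prod_ne_zero_iff.mpr fun i _ => by have := hx0 i; positivity
      rw [Int.cast_zero, zero_mul] at hN'
      exact mul_ne_zero (mul_ne_zero this hν0) (by positivity) hN'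
    have hN1 : (1 : ℝ) ≤ |(N : ℝ)| := by exact_mod_cast Int.one_le_abs hN0
    have hpν : ∏ i, ((x i : ℝ) / h) ^ ν i ≤ 2 ^ n := by
      refine le_trans ?_ (pow_le_pow_right₀ (by norm_num) (show ∑ i, ν i ≤ n by omega))
      rw [← Finset.prod_pow_eq_pow_sum]
      refine Finset.prod_le_prod (fun _ _ => by positivity) fun i _ =>
        pow_le_pow_left₀ (by positivity) ?_ _
      rw [div_le_iff₀ hR]; exact_mod_cast (hx i).2
    have hc2 : (c : ℝ) ^ (2 * k) * h ^ (n / 2) ≤ h ^ n := by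
      have h4 : ((c : ℝ) ^ (2 * k)) ^ 2 ≤ h ^ n := by
        rw [← pow_mul, show 2 * k * 2 = 4 * k by ring]; exact_mod_cast hck
      refine le_of_pow_le_pow_left₀ two_ne_zero (by positivity) ?_
      rw [mul_pow, sq ((h : ℝ) ^ n)]
      gcongr
    have h4 := half_pow_le (fun i => (hx i).1) h₁
    have h5 := half_pow_le (fun i => (hx i).1) h₂
    have h6 := congrArg (fun t : ℚ => |(t : ℝ)|) hN'
    simp only [Rat.cast_mul, Rat.cast_prod, Rat.cast_pow, Rat.cast_div, Rat.cast_natCast,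
      Rat.cast_intCast, abs_mul, abs_pow, Nat.abs_cast] at h6
    rw [abs_of_nonneg (Finset.prod_nonneg fun _ _ => by positivity)] at h6
    generalize ((∏ i, x i ^ e₁ i : ℕ) : ℝ) = m₁ at h4 h6
    generalize ((∏ i, x i ^ e₂ i : ℕ) : ℝ) = m₂ at h5 h6
    have hm₁ : 0 ≤ m₁ := nonneg_of_mul_nonneg_right (le_trans (by positivity) h4) (by positivity)
    have hm₂ : 0 ≤ m₂ := nonneg_of_mul_nonneg_right (le_trans (by positivity) h5) (by positivity)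
    have h7 : η ^ (J * (2 * n)) * (h : ℝ) ^ (2 * n) ≤ 1 := by
      rw [pow_mul, ← mul_pow]; exact pow_le_one₀ (by positivity) hη
    have h8 : (2 * k + 1 : ℝ) ≤ (2 * k + 1) ^ n :=
      le_self_pow₀ (by linarith [Nat.cast_nonneg (α := ℝ) k]) (by omega)
    have h9 : (h : ℝ) ^ n * (h ^ n * h ^ (2 * k * n)) ≤
        (4 ^ k * (2 * ((2 * k + 1) * (4 ^ (2 * k + 1) * K₁)))) ^ n * (h ^ n * h ^ (2 * k * n)) := by
      calc (h : ℝ) ^ n * (h ^ n * h ^ (2 * k * n)) = h ^ (2 * n) * (h ^ n * h ^ n) ^ k := by ring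
        _ ≤ h ^ (2 * n) * (2 ^ n * m₁ * (2 ^ n * m₂)) ^ k := by gcongr
        _ = h ^ (2 * n) * (2 ^ n * 2 ^ n) ^ k * (1 * (m₁ * m₂) ^ k) := by ring
        _ ≤ h ^ (2 * n) * (2 ^ n * 2 ^ n) ^ k * (|(N : ℝ)| * (m₁ * m₂) ^ k) := by gcongr
        _ = h ^ (2 * n) * (2 ^ n * 2 ^ n) ^ k * ((∏ i, ((x i : ℝ) / h) ^ ν i) * |(q : ℝ)| *
            ((c : ℝ) ^ (2 * k) * h ^ (n / 2) * h ^ (2 * k * n))) := by rw [h6]
        _ ≤ h ^ (2 * n) * (2 ^ n * 2 ^ n) ^ k * (2 ^ n *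
            ((2 * k + 1) * (4 ^ ((2 * k + 1) * n) * K₁ ^ n * η ^ (J * (2 * n)))) *
            ((h : ℝ) ^ n * h ^ (2 * k * n))) := by gcongr
        _ = (η ^ (J * (2 * n)) * (h : ℝ) ^ (2 * n)) * (2 * k + 1) * ((2 ^ n * 2 ^ n) ^ k * 2 ^ n *
            (4 ^ ((2 * k + 1) * n) * K₁ ^ n) * ((h : ℝ) ^ n * h ^ (2 * k * n))) := by ring
        _ ≤ 1 * (2 * k + 1) ^ n * ((2 ^ n * 2 ^ n) ^ k * 2 ^ n *
            (4 ^ ((2 * k + 1) * n) * K₁ ^ n) * ((h : ℝ) ^ n * h ^ (2 * k * n))) := by gcongr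
        _ = _ := by
            rw [← mul_pow 2 2 n, show (2 * 2 : ℝ) = 4 by norm_num, ← pow_mul 4 n k, mul_comm n k,
              pow_mul 4 k n, pow_mul 4 (2 * k + 1) n]
            generalize (2 * k + 1 : ℝ) = t
            generalize (4 : ℝ) ^ (2 * k + 1) = t'
            generalize (4 : ℝ) ^ k = t''
            simp only [mul_pow]
            ring
    have h10 := le_of_mul_le_mul_right h9 (by positivity)
    have h11 := le_of_pow_le_pow_left₀ (by omega) p3.le h10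
    linarith
  have h12 := hvan.hasse κ
  rw [hasse_shift, map_sum] at h12
  simp only [← smul_eq_C_mul, map_smul] at h12 ⊢
  simp only [map_hasse]
  refine h12.mono ?_
  rw [weight_const, mul_one, le_sub_iff_add_le]
  exact_mod_cast (by omega : (n + 1) / 2 + ∑ i, κ i ≤ n + 1)

end Pool.Agent.Lib.MP_4ffbf9_nt.EF
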