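import Mathlib
import Pool.Agent.Lib.MP_4ffbf9_nt.EF.Defs

set_option autoImplicit false

namespace Pool.Agent.Lib.MP_4ffbf9_nt.EF

open MvPolynomial Pool.Agent.Subspace Pool.Agent.Lib.MP_4ffbf9_nt.PR

theorem not_rel_zero (L : ℕ) (q : Fin 0 → ℚ) : ¬ Rel L q := by
  rintro ⟨Ω, h0, -, -, h3⟩
  rw [eq_C_of_isEmpty Ω] at h0 h3
  rw [aeval_C, eq_intCast, Int.cast_eq_zero] at h3
  exact h0 (by rw [h3, C_0])

theorem inj_of_not_rel {d L : ℕ} (hL : 1 ≤ L) {q : Fin d → ℚ} (h : ¬ Rel L q) :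
    Function.Injective q := fun i j hij => by
  by_contra hne
  refine h ⟨X i - X j, sub_ne_zero.2 fun e => hne (X_injective e), ?_, ?_, by simp [hij]⟩
  · exact (totalDegree_sub _ _).trans (by simpa using hL)
  · rw [sub_eq_add_neg]
    refine (l1_add_le _ _).trans ?_
    rw [l1_neg, l1_X, l1_X]
    simpa [one_add_one_eq_two] using pow_le_pow_right₀ (one_le_two : (1 : ℝ) ≤ 2) hL

theorem sp_finSucc {d : ℕ} (q : Fin d → ℚ) (y : ℚ) (Ω : MvPolynomial (Fin (d + 1)) ℤ) :
    (sp q (finSuccEquiv ℤ d Ω)).eval y = aeval (Fin.cons y q : Fin (d + 1) → ℚ) Ω := by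
  unfold sp
  induction Ω using MvPolynomial.induction_on with
  | C a => simp
  | add p r hp hr => simp only [map_add, Polynomial.map_add, Polynomial.eval_add, hp, hr]
  | mul_X p i hp =>
    simp only [map_mul, Polynomial.map_mul, Polynomial.eval_mul, hp]
    induction i using Fin.cases with
    | zero => simp [finSuccEquiv_X_zero]
    | succ i => simp [finSuccEquiv_X_succ]

/-- The greedy chain. -/
theorem chain {ι : Type} [Fintype ι] (p : ι → ℚ) (L : ℕ → ℕ) (hL : ∀ d, 1 ≤ L d) :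
    ∃ d ≤ Fintype.card ι, ∃ t : Fin d → ι, ¬ Rel (L d) (fun i => p (t i)) ∧
      ∀ v, Rel (L (d + 1)) (Fin.cons (p v) (fun i => p (t i)) : Fin (d + 1) → ℚ) := by
  classical
  let P : ℕ → Prop := fun d => ∃ t : Fin d → ι, ¬ Rel (L d) (fun i => p (t i))
  have h0 : P 0 := ⟨Fin.elim0, not_rel_zero _ _⟩
  have hb : ∀ d, P d → d ≤ Fintype.card ι := fun d ⟨t, ht⟩ => by
    simpa using Fintype.card_le_of_injective t
      (Function.Injective.of_comp (f := p) (inj_of_not_rel (hL d) ht))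
  obtain ⟨t, ht⟩ := Nat.findGreatest_spec (Nat.zero_le (Fintype.card ι)) h0
  refine ⟨_, Nat.findGreatest_le _, t, ht, fun v => ?_⟩
  by_contra hv
  have h1 : P (Nat.findGreatest P (Fintype.card ι) + 1) := ⟨Fin.cons v t, fun h => hv (by
    have e : (fun i => p ((Fin.cons v t : Fin _ → ι) i)) =
        (Fin.cons (p v) (fun i => p (t i)) : Fin _ → ℚ) := by
      funext i
      induction i using Fin.cases <;> simp
    rwa [e] at h)⟩
  exact Nat.findGreatest_is_greatest (Nat.lt_succ_self _) (hb _ h1) h1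

theorem exists_good {d L : ℕ} {q : Fin d → ℚ} {y : ℚ} (h0 : ¬ Rel L q)
    (h1 : Rel L (Fin.cons y q : Fin (d + 1) → ℚ)) : ∃ Q, Good L q y Q := by
  classical
  obtain ⟨Ω, a0, a1, a2, a3⟩ := h1
  set P := finSuccEquiv ℤ d Ω with hP
  have cd : ∀ k, (P.coeff k).totalDegree ≤ L := fun k =>
    (totalDegree_coeff_finSucc_le Ω k).trans a1
  have cl : ∀ k, l1 (P.coeff k) ≤ 2 ^ L := fun k => (l1_coeff_finSucc_le Ω k).trans a2
  have nz : ∀ k, P.coeff k ≠ 0 → eval₂Hom (Int.castRingHom ℚ) q (P.coeff k) ≠ 0 :=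
    fun k hk h => h0 ⟨_, hk, cd k, cl k, h⟩
  have nd : P.natDegree ≤ L := by
    rw [hP, natDegree_finSuccEquiv]
    exact (degreeOf_le_totalDegree Ω 0).trans a1
  have P0 : P ≠ 0 := fun h => a0 ((finSuccEquiv ℤ d).map_eq_zero_iff.1 h)
  have S0 : sp q P ≠ 0 := fun h => nz _ (Polynomial.leadingCoeff_ne_zero.2 P0) (by
    have := congrArg (fun T => Polynomial.coeff T P.natDegree) h
    simpa only [sp, Polynomial.coeff_map, Polynomial.coeff_zero] using this)
  have ex : ∃ j, (Polynomial.hasseDeriv j (sp q P)).eval y ≠ 0 := by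
    by_contra h
    refine S0 (Polynomial.taylor_injective y ?_)
    ext j
    rw [Polynomial.taylor_coeff, map_zero, Polynomial.coeff_zero]
    exact not_not.1 (not_exists.1 h j)
  have m0 : Nat.find ex ≠ 0 := fun h => by
    have := Nat.find_spec ex
    rw [h, Polynomial.hasseDeriv_zero', hP, sp_finSucc] at this
    exact this a3
  obtain ⟨j, hj⟩ := Nat.exists_eq_succ_of_ne_zero m0
  have e : sp q (Polynomial.hasseDeriv j P) = Polynomial.hasseDeriv j (sp q P) :=
    (hasseDeriv_map' _ j P).symm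
  have simple : (Polynomial.derivative (sp q (Polynomial.hasseDeriv j P))).eval y ≠ 0 := by
    have h1 := congrArg (fun T => Polynomial.eval y (T (sp q P)))
      (Polynomial.hasseDeriv_comp (R := ℚ) 1 j)
    simp only [LinearMap.comp_apply, LinearMap.smul_apply, Polynomial.hasseDeriv_one'] at h1
    rw [e, h1, nsmul_eq_mul, Polynomial.eval_mul, Polynomial.eval_natCast]
    refine mul_ne_zero (Nat.cast_ne_zero.2 (Nat.choose_pos (by omega)).ne') ?_
    have h2 := Nat.find_spec ex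
    rwa [hj, Nat.succ_eq_add_one, add_comm] at h2
  refine ⟨Polynomial.hasseDeriv j P,
    ((Polynomial.natDegree_hasseDeriv_le P j).trans (Nat.sub_le _ _)).trans nd, fun k => ?_,
    fun k => ?_, ?_, simple, ?_⟩
  · rw [Polynomial.hasseDeriv_coeff, ← nsmul_eq_mul]
    exact (totalDegree_smul_le _ _).trans (cd _)
  · rw [Polynomial.hasseDeriv_coeff]
    by_cases hk : k + j ≤ L
    · refine (l1_mul_le _ _).trans ?_
      rw [← map_natCast (C : ℤ →+* MvPolynomial (Fin d) ℤ), l1_C, Int.norm_natCast,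
        show (4 : ℝ) = 2 * 2 by norm_num, mul_pow]
      refine mul_le_mul ?_ (cl _) (l1_nonneg _) (by positivity)
      exact_mod_cast (Nat.choose_le_two_pow _ _).trans (Nat.pow_le_pow_right two_pos hk)
    · rw [Polynomial.coeff_eq_zero_of_natDegree_lt (by omega), mul_zero, l1_zero]
      positivity
  · rw [e]
    exact not_not.1 (Nat.find_min ex (by omega))
  · have Q0 : Polynomial.hasseDeriv j P ≠ 0 := fun h => simple (by simp [h, sp])
    have h1 := Polynomial.leadingCoeff_ne_zero.2 Q0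
    rw [Polynomial.leadingCoeff, Polynomial.hasseDeriv_coeff] at h1 ⊢
    rw [map_mul, map_natCast]
    exact mul_ne_zero (Nat.cast_ne_zero.2 (Nat.choose_pos (by omega)).ne')
      (nz _ (right_ne_zero_of_mul h1))

end Pool.Agent.Lib.MP_4ffbf9_nt.EF
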