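import Mathlib
import Pool.Agent.Lib.MP_4ffbf9_nt.EF.Defs

set_option autoImplicit false

namespace Pool.Agent.Lib.MP_4ffbf9_nt.EF

open MvPolynomial Pool.Agent.Subspace Pool.Agent.Lib.MP_4ffbf9_nt.PR

theorem fse_rename {n : ℕ} (g : MvPolynomial (Fin n) ℤ) :
    finSuccEquiv ℤ n (rename Fin.succ g) = Polynomial.C g := by
  induction g using MvPolynomial.induction_on with
  | C a => simp
  | add p q hp hq => rw [map_add, map_add, hp, hq, map_add]
  | mul_X p i hp => rw [map_mul, map_mul, hp, rename_X, finSuccEquiv_X_succ, map_mul]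

theorem degreeOf_det_le {τ : Type} {e D : ℕ} (a : τ)
    (A : Matrix (Fin e) (Fin e) (MvPolynomial τ ℤ)) (h : ∀ i k, (A i k).degreeOf a ≤ D) :
    A.det.degreeOf a ≤ e * D := by
  rw [Matrix.det_apply']
  refine (degreeOf_sum_le _ _ _).trans (Finset.sup_le fun π _ => (degreeOf_mul_le _ _ _).trans ?_)
  rw [← eq_intCast C, degreeOf_C, zero_add]
  refine (degreeOf_prod_le _ _ _).trans ((Finset.sum_le_sum fun i _ => h (π i) i).trans ?_)
  simp

theorem dvd_low {S T : Type} [CommRing S] [CommRing T] (g : S →+* T) {χ : Polynomial S}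
    (hχ : χ ≠ 0) {t : T} (ht : t ∈ nonZeroDivisors T) (h : χ.eval₂ g t = 0) :
    ∃ ρ, χ.coeff ρ ≠ 0 ∧ t ∣ g (χ.coeff ρ) := by
  obtain ⟨q, hq, hn⟩ := Polynomial.exists_eq_pow_rootMultiplicity_mul_and_not_dvd χ hχ 0
  generalize Polynomial.rootMultiplicity 0 χ = ρ at hq
  rw [map_zero, sub_zero] at hq hn
  have h1 : χ.coeff ρ = q.coeff 0 := by
    simpa [hq] using Polynomial.coeff_X_pow_mul q ρ 0
  refine ⟨ρ, h1 ▸ fun h0 => hn (Polynomial.X_dvd_iff.2 h0), ?_⟩
  rw [hq, Polynomial.eval₂_mul, Polynomial.eval₂_X_pow] at h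
  have h2 := (mem_nonZeroDivisors_iff.1 (pow_mem ht ρ)).1 _ h
  rw [← Polynomial.X_mul_divX_add q, Polynomial.eval₂_add, Polynomial.eval₂_mul,
    Polynomial.eval₂_X, Polynomial.eval₂_C] at h2
  exact ⟨-(q.divX.eval₂ g t), by rw [h1]; linear_combination h2⟩

theorem rep_charpoly {S T : Type} [CommRing S] [CommRing T] {e : ℕ} {g : S →+* T} {ω : Fin e → T}
    {y : T} {A : Matrix (Fin e) (Fin e) S} (h : Rep g ω y A) {i₀ : Fin e} (hω : ω i₀ = 1) :
    A.charpoly.eval₂ g y = 0 := by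
  have h1 : Rep (RingHom.id T) ω 0 (Matrix.scalar _ y - A.map g) := fun i => by
    simp [sub_mul, Matrix.diagonal_apply, ← h i]
  have h2 := h1.det_mul i₀
  rw [hω, mul_one, zero_mul] at h2
  rw [Polynomial.eval₂_eq_eval_map, ← Matrix.charpoly_map, Matrix.eval_charpoly]
  exact h2

/-- The lowest nonzero coefficient of the characteristic polynomial of `∑ l, U ^ l • M l`. -/
theorem charN {d s r D : ℕ} {B : ℝ} (hB : 0 ≤ B)
    (M : Fin r → Matrix (Fin s) (Fin s) (MvPolynomial (Fin d) ℤ))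
    (hd : ∀ l i k, (M l i k).totalDegree ≤ D) (hl : ∀ l i k, l1 (M l i k) ≤ B)
    {R : Type} [CommRing R] (γ : MvPolynomial (Fin d) ℤ →+* R) (ω : Fin s → R) (i₀ : Fin s)
    (hω : ω i₀ = 1) (y : Fin r → R) (hy : ∀ l, Rep γ ω (y l) (M l))
    (h0 : ∃ l, y l ∈ nonZeroDivisors R) :
    ∃ V : Fin (s * r + 1) → MvPolynomial (Fin d) ℤ, (∃ j, V j ≠ 0) ∧
      (∀ j, (V j).totalDegree ≤ s * (D + r + 1)) ∧
      (∀ j, l1 (V j) ≤ s.factorial * (1 + r * B) ^ s) ∧
      ∀ u : R, (∑ l : Fin r, u ^ (l : ℕ) * y l) ∣ ∑ j : Fin (s * r + 1), u ^ (j : ℕ) * γ (V j) := by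
  let A : Matrix (Fin s) (Fin s) (MvPolynomial (Fin (d + 1)) ℤ) :=
    Matrix.of fun i k => ∑ l : Fin r, X 0 ^ (l : ℕ) * rename Fin.succ (M l i k)
  let A' : Matrix (Fin s) (Fin s) (MvPolynomial (Fin (d + 1 + 1)) ℤ) :=
    Matrix.of fun i k => (if i = k then X 0 else 0) - rename Fin.succ (A i k)
  have hA : ∀ i k, finSuccEquiv ℤ d (A i k) =
      ∑ l : Fin r, Polynomial.X ^ (l : ℕ) * Polynomial.C (M l i k) := fun i k => by
    simp only [A, Matrix.of_apply, map_sum, map_mul, map_pow, finSuccEquiv_X_zero, fse_rename]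
  have hχ : finSuccEquiv ℤ (d + 1) A'.det = A.charpoly := by
    rw [AlgEquiv.map_det, Matrix.charpoly]
    refine congrArg Matrix.det (Matrix.ext fun i k => ?_)
    simp only [A', AlgEquiv.mapMatrix_apply, Matrix.map_apply, Matrix.of_apply, map_sub,
      fse_rename, Matrix.charmatrix_apply, Matrix.diagonal_apply]
    split_ifs <;> simp [finSuccEquiv_X_zero]
  have b1 : A'.det.totalDegree ≤ s * (D + r + 1) := totalDegree_det_le _ fun i k => by
    refine (totalDegree_sub _ _).trans (max_le ?_ ((totalDegree_rename_le _ _).trans ?_))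
    · split_ifs <;> simp
    · simp only [A, Matrix.of_apply]
      refine totalDegree_finsetSum_le fun l _ => (totalDegree_mul _ _).trans ?_
      have := (totalDegree_rename_le (Fin.succ (n := d)) (M l i k)).trans (hd l i k)
      rw [totalDegree_X_pow]
      omega
  have b2 : l1 A'.det ≤ s.factorial * (1 + r * B) ^ s := l1_det_le _ fun i k => by
    simp only [A', Matrix.of_apply, sub_eq_add_neg]
    refine (l1_add_le _ _).trans (add_le_add ?_ ?_)
    · split_ifs <;> simp [l1_X]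
    · rw [l1_neg]
      refine (l1_rename_le _).trans ?_
      simp only [A, Matrix.of_apply]
      refine (l1_sum_le _ _).trans ?_
      refine (Finset.sum_le_sum (g := fun _ => B) fun l _ => ?_).trans (by simp)
      have h1 := l1_pow_le (X 0 : MvPolynomial (Fin (d + 1)) ℤ) l
      rw [l1_X, one_pow] at h1
      refine (l1_mul_le _ _).trans ?_
      simpa using mul_le_mul h1 ((l1_rename_le _).trans (hl l i k)) (l1_nonneg _) zero_le_one
  have b3 : A'.det.degreeOf (Fin.succ 0) ≤ s * r := degreeOf_det_le _ _ fun i k => by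
    refine (degreeOf_sub_le _ _ _).trans (max_le ?_ ?_)
    · split_ifs
      · rw [degreeOf_X_of_ne (Fin.succ_ne_zero _)]
        exact Nat.zero_le _
      · simp
    · rw [degreeOf_rename_of_injective (Fin.succ_injective _), ← natDegree_finSuccEquiv, hA]
      refine Polynomial.natDegree_sum_le_of_forall_le _ _ fun l _ => ?_
      exact (Polynomial.natDegree_mul_C_le _ _).trans (by simp)
  let g : MvPolynomial (Fin (d + 1)) ℤ →+* Polynomial R :=
    (Polynomial.mapRingHom γ).comp (finSuccEquiv ℤ d).toRingEquiv.toRingHom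
  have hg : ∀ f, g f = (finSuccEquiv ℤ d f).map γ := fun _ => rfl
  have hr : Rep g (fun k => Polynomial.C (ω k))
      (∑ l : Fin r, Polynomial.X ^ (l : ℕ) * Polynomial.C (y l)) A := fun i => by
    simp only [hg, hA, Polynomial.map_sum, Polynomial.map_mul, Polynomial.map_pow,
      Polynomial.map_X, Polynomial.map_C, Finset.sum_mul, mul_assoc, ← Polynomial.C_mul]
    rw [Finset.sum_comm]
    refine Finset.sum_congr rfl fun l _ => ?_
    rw [hy l i, map_sum, Finset.mul_sum]
  obtain ⟨l₀, hl₀⟩ := h0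
  have hn : (∑ l : Fin r, Polynomial.X ^ (l : ℕ) * Polynomial.C (y l)) ∈
      nonZeroDivisors (Polynomial R) := by
    refine Polynomial.mem_nonzeroDivisors_of_coeff_mem l₀ ?_
    rw [Polynomial.finsetSum_coeff, Finset.sum_eq_single l₀]
    · simpa using hl₀
    · intro l _ h
      simp [Polynomial.coeff_X_pow, Fin.val_inj, h.symm]
    · simp
  obtain ⟨ρ, h1, h2⟩ := dvd_low g A.charpoly_monic.ne_zero hn
    (rep_charpoly hr (i₀ := i₀) (by rw [hω, map_one]))
  rw [← hχ] at h1 h2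
  set N := (finSuccEquiv ℤ (d + 1) A'.det).coeff ρ
  have hN : (finSuccEquiv ℤ d N).natDegree < s * r + 1 := by
    rw [natDegree_finSuccEquiv]
    exact Nat.lt_succ_of_le ((degreeOf_coeff_finSuccEquiv _ _ _).trans b3)
  refine ⟨fun j => (finSuccEquiv ℤ d N).coeff j, ⟨⟨_, hN⟩, ?_⟩, fun j => ?_, fun j => ?_,
    fun u => ?_⟩
  · exact Polynomial.leadingCoeff_ne_zero.2 ((map_ne_zero_iff _ (finSuccEquiv ℤ d).injective).2 h1)
  · exact (totalDegree_coeff_finSucc_le _ _).trans ((totalDegree_coeff_finSucc_le _ _).trans b1)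
  · exact (l1_coeff_finSucc_le _ _).trans ((l1_coeff_finSucc_le _ _).trans b2)
  · have h3 := map_dvd (Polynomial.evalRingHom u) h2
    rw [hg, Polynomial.coe_evalRingHom, Polynomial.eval_map, Polynomial.eval₂_eq_sum_range' _ hN,
      Finset.sum_range] at h3
    simp only [Polynomial.eval_finsetSum, Polynomial.eval_mul, Polynomial.eval_pow,
      Polynomial.eval_X, Polynomial.eval_C] at h3
    simpa only [mul_comm (u ^ _) (γ _)] using h3

end Pool.Agent.Lib.MP_4ffbf9_nt.EF
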