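import Mathlib
import Pool.Agent.Lib.MP_4ffbf9_nt.EF.Defs

set_option autoImplicit false

namespace Pool.Agent.Lib.MP_4ffbf9_nt.EF

open MvPolynomial Pool.Agent.Subspace Pool.Agent.Lib.MP_4ffbf9_nt.PR

theorem ce_num {κ c a l p s : ℝ} {R : ℕ} (hc : 1 ≤ c) (a1 : 1 ≤ a) (l1 : 1 ≤ l)
    (p1 : 1 ≤ p) (h : (3 * c + κ * c) * (a ^ (2 * R + 1) * l ^ 2) ≤ s) :
    1 + 2 * (c * p * a) + κ * (c * p * a) * a ^ (2 * R) * l ^ 2 ≤ p * s := by
  have l2 : a ≤ a ^ (2 * R + 1) * l ^ 2 :=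
    (le_self_pow₀ a1 (by omega)).trans (le_mul_of_one_le_right (by positivity) (one_le_pow₀ l1))
  have e1 : κ * (c * p * a) * a ^ (2 * R) * l ^ 2 =
      p * (κ * c * (a ^ (2 * R + 1) * l ^ 2)) := by ring
  have e2 : 1 ≤ c * p * a := one_le_mul_of_one_le_of_one_le
    (one_le_mul_of_one_le_of_one_le hc p1) a1
  have e3 : c * p * a ≤ c * p * (a ^ (2 * R + 1) * l ^ 2) :=
    mul_le_mul_of_nonneg_left l2 (by positivity)
  have e4 := mul_le_mul_of_nonneg_left h (by linarith : 0 ≤ p)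
  rw [e1]
  linarith

theorem ce_end {M ε θ θ' H : ℝ} (hε : 0 < ε) (hθ : 0 < θ) (H1 : 1 ≤ H)
    (h : 8 * (2 * |M| + 3) / ε ≤ H ^ (θ' - θ)) :
    (2 * |M| + 2) * Real.exp (-(ε / 8 * H ^ θ')) ≤ Real.exp (-(H ^ θ)) := by
  have m0 : 0 < 2 * |M| + 2 := by positivity
  have t1 : 1 ≤ H ^ θ := Real.one_le_rpow H1 hθ.le
  have e : H ^ θ' = H ^ (θ' - θ) * H ^ θ := by
    rw [← Real.rpow_add (by linarith), sub_add_cancel]
  rw [div_le_iff₀ hε] at h
  have h2 := mul_le_mul_of_nonneg_right h (by linarith : 0 ≤ H ^ θ)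
  have h3 : 2 * |M| + 2 ≤ (2 * |M| + 2) * H ^ θ := le_mul_of_one_le_right m0.le t1
  have h4 : 2 * |M| + 2 ≤ Real.exp (2 * |M| + 2) := by
    linarith [Real.add_one_le_exp (2 * |M| + 2)]
  refine (mul_le_mul_of_nonneg_right h4 (Real.exp_pos _).le).trans ?_
  rw [← Real.exp_add, Real.exp_le_exp, e]
  linarith

/-- Linear forms in logarithms in the subexponential range. -/
theorem close_eff (A B C R S : ℕ) (Q M ε θ θ' : ℝ) (hA : 0 < A) (hB : 0 < B) (hC : 0 < C)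
    (hε : 0 < ε) (hε2 : ε ≤ 1 / 2) (hθ : 0 < θ) (hθ' : θ < θ') (hθ1 : θ' ≤ 1) : ∃ h1 : ℕ,
    ∀ (n h : ℕ) (a : Fin 3 → ℕ) (w m : Fin 3 → Fin R → ℕ), h1 ≤ h →
      Real.log h ^ θ' ≤ 4 * Real.log n → Sol A B C R S Q ε n h a w m → (∃ k i, w k i = h) →
      (∀ k i j, (w k i : ℝ) ≤ w k j + M * (h : ℝ) ^ (1 - ε)) →
      ∀ k i, (h : ℝ) ≤ w k i + h * Real.exp (-(Real.log h ^ θ)) := by
  obtain ⟨κ, hκ, H⟩ := cl_logs R
  have θ0 : 0 < θ' := hθ.trans hθ'
  obtain ⟨T, hT⟩ := exists_nat_ge θ'⁻¹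
  set c : ℝ := 1 + S + (A + B + C : ℕ) with hc
  have c1 : 1 ≤ c := by
    have : (0 : ℝ) ≤ S + (A + B + C : ℕ) := by positivity
    linarith
  have hK : 0 < (3 * c + κ * c) * 4 ^ (T * (2 * R + 1)) := by positivity
  have E1 := (isLittleO_log_rpow_rpow_atTop ((T * (2 * R + 1) + 2 : ℕ) : ℝ) (half_pos hε)).bound
    (inv_pos.2 hK)
  obtain ⟨N, hN⟩ := Filter.eventually_atTop.1 (E1.and (Filter.eventually_ge_atTop 3))
  have TL := Real.tendsto_log_atTop.comp (tendsto_natCast_atTop_atTop (R := ℝ))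
  have E2 := ((tendsto_rpow_atTop θ0).comp TL).eventually_ge_atTop (4 * (|N| + 1))
  have E3 := ((tendsto_rpow_atTop (sub_pos.2 hθ')).comp TL).eventually_ge_atTop
    (8 * (2 * |M| + 3) / ε)
  obtain ⟨h1, hh1⟩ := Filter.eventually_atTop.1
    (E2.and (E3.and ((TL.eventually_ge_atTop 1).and (Filter.eventually_ge_atTop 1))))
  refine ⟨h1, fun n h a w m hh hn sol ⟨k0, i0, hw0⟩ hsp k i => ?_⟩
  obtain ⟨e2, e3, H1, hpos⟩ := hh1 h hh
  simp only [Function.comp_apply] at e2 e3 H1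
  have l1 : 1 ≤ Real.log n := by linarith [abs_nonneg N]
  have n0 : (0 : ℝ) < n := by
    rcases Nat.eq_zero_or_pos n with h0 | h0
    · rw [h0] at l1
      norm_num at l1
    · exact_mod_cast h0
  obtain ⟨e1, n3'⟩ := hN n (by linarith [Real.log_le_sub_one_of_pos n0, le_abs_self N])
  have n3 : 3 ≤ n := by exact_mod_cast n3'
  have h1' : (1 : ℝ) ≤ h := by exact_mod_cast hpos
  have h0 : (0 : ℝ) < h := by linarith
  set s : ℝ := (n : ℝ) ^ (ε / 2) with hs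
  have s0 : 0 < s := Real.rpow_pos_of_pos n0 _
  set p : ℝ := (n : ℝ) ^ (1 - ε) with hp
  have p1 : 1 ≤ p := Real.one_le_rpow (by linarith) (by linarith)
  have ps : p * s = n * s⁻¹ := by
    rw [eq_mul_inv_iff_mul_eq₀ s0.ne', hs, hp, ← Real.rpow_add n0, ← Real.rpow_add n0,
      show 1 - ε + ε / 2 + ε / 2 = 1 by ring, Real.rpow_one]
  set b : ℝ := (4 * Real.log n) ^ T with hb
  have e1' : (3 * c + κ * c) * (b ^ (2 * R + 1) * Real.log n ^ 2) ≤ s := by
    rw [Real.norm_of_nonneg s0.le, Real.norm_of_nonneg (by positivity), inv_mul_eq_div,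
      le_div_iff₀ hK, Real.rpow_natCast] at e1
    refine le_trans (le_of_eq ?_) e1
    rw [hb, ← pow_mul, mul_pow]
    ring
  have lh : Real.log h ≤ b := by
    have u1 := Real.rpow_le_rpow (Real.rpow_nonneg (by linarith) _) hn (inv_pos.2 θ0).le
    rw [Real.rpow_rpow_inv (by linarith) θ0.ne'] at u1
    refine u1.trans ?_
    rw [hb, ← Real.rpow_natCast]
    exact Real.rpow_le_rpow_of_exponent_le (by linarith) hT
  have A1 : 1 ≤ b := H1.trans lh
  have hw : ∀ k i, (w k i : ℝ) ≤ Real.exp b := fun k i =>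
    (Nat.cast_le.2 (sol.w_le k i)).trans ((Real.log_le_iff_le_exp h0).1 lh)
  have L1 : 1 ≤ c * p * b :=
    one_le_mul_of_one_le_of_one_le (one_le_mul_of_one_le_of_one_le c1 p1) A1
  have ha : ∀ (D : ℕ) (k : Fin 3), D ≤ A + B + C →
      ((D * a k : ℕ) : ℝ) ≤ Real.exp (c * p * b) := fun D k hD => by
    have d1 : (D : ℝ) ≤ Real.exp (A + B + C : ℕ) :=
      (Nat.cast_le.2 hD).trans (by linarith [Real.add_one_le_exp ((A + B + C : ℕ) : ℝ)])
    have d2 : (h : ℝ) ^ S ≤ Real.exp (S * b) := by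
      rw [Real.exp_nat_mul]
      exact pow_le_pow_left₀ h0.le ((Real.log_le_iff_le_exp h0).1 lh) S
    have d3 := (sol.a_le k).trans (mul_le_mul_of_nonneg_left d2 (Real.exp_pos _).le)
    rw [Nat.cast_mul]
    refine (mul_le_mul d1 d3 (Nat.cast_nonneg _) (Real.exp_pos _).le).trans ?_
    rw [← Real.exp_add, ← Real.exp_add, Real.exp_le_exp, hc]
    have pl : 1 ≤ p * b := one_le_mul_of_one_le_of_one_le p1 A1
    have f1 : p ≤ p * b := le_mul_of_one_le_right (by linarith) A1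
    have f2 : (S : ℝ) * b ≤ S * (p * b) :=
      mul_le_mul_of_nonneg_left (le_mul_of_one_le_left (by linarith) p1) (by positivity)
    have f3 : ((A + B + C : ℕ) : ℝ) ≤ (A + B + C : ℕ) * (p * b) :=
      le_mul_of_one_le_right (Nat.cast_nonneg _) pl
    linarith
  have hm : ∀ k i, m k i ≤ n := fun k i =>
    sol.deg k ▸ Finset.single_le_sum (f := m k) (fun _ _ => Nat.zero_le _) (Finset.mem_univ i)
  have fin := (ce_num c1 A1 l1 p1 e1').trans ps.le
  have heq := sol.eq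
  rw [← mul_assoc, ← mul_assoc, ← mul_assoc] at heq
  have pa := Nat.mul_pos hA (sol.a_pos 0)
  have pb := Nat.mul_pos hB (sol.a_pos 1)
  have pc := Nat.mul_pos hC (sol.a_pos 2)
  have both : ∀ k, |∑ i, (m k i : ℝ) * Real.log (w k i) - ∑ i, (m 2 i : ℝ) * Real.log (w 2 i)| ≤
      n * s⁻¹ := by
    have two : |∑ i, (m 0 i : ℝ) * Real.log (w 0 i) - ∑ i, (m 2 i : ℝ) * Real.log (w 2 i)| ≤
        n * s⁻¹ ∧ |∑ i, (m 1 i : ℝ) * Real.log (w 1 i) - ∑ i, (m 2 i : ℝ) * Real.log (w 2 i)| ≤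
        n * s⁻¹ := by
      rcases le_total (A * a 0 * ∏ i, w 0 i ^ m 0 i) (B * a 1 * ∏ i, w 1 i ^ m 1 i) with hle | hle
      · obtain ⟨u, v⟩ := H n _ _ _ _ _ _ _ _ _ _ _ n3 pa pb pc (sol.w_pos 0) (sol.w_pos 1)
          (sol.w_pos 2) (hm 1) (hm 2) L1 A1 (ha A 0 (by omega)) (ha B 1 (by omega))
          (ha C 2 (by omega)) (hw 1) (hw 2) heq hle
        exact ⟨u.trans fin, v.trans fin⟩
      · obtain ⟨u, v⟩ := H n _ _ _ _ _ _ _ _ _ _ _ n3 pb pa pc (sol.w_pos 1) (sol.w_pos 0)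
          (sol.w_pos 2) (hm 0) (hm 2) L1 A1 (ha B 1 (by omega)) (ha A 0 (by omega))
          (ha C 2 (by omega)) (hw 0) (hw 2) ((add_comm _ _).trans heq) hle
        exact ⟨v.trans fin, u.trans fin⟩
    intro k
    match k with
    | 0 => exact two.1
    | 1 => exact two.2
    | 2 =>
      rw [sub_self, abs_zero]
      positivity
  set D : ℝ := M * (h : ℝ) ^ (1 - ε) with hD
  have D0 : 0 ≤ D := by linarith [hsp k i i]
  have wp : (0 : ℝ) < w k i := by exact_mod_cast sol.w_pos k i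
  have si : 0 < s⁻¹ := inv_pos.2 s0
  have main : (h : ℝ) ≤ w k i + 2 * D + 2 * s⁻¹ * h := by
    rcases le_or_gt (h : ℝ) D with hle | hlt
    · have : 0 ≤ 2 * s⁻¹ * h := by positivity
      linarith
    · have := cl_win (lo := h - D) (hi := w k i + D) (t := 2 * s⁻¹) (by omega) (sol.w_pos k)
        (sol.deg k0) (sol.deg k) (by linarith) (by linarith)
        (fun j => by have := hsp k0 i0 j; rw [hw0] at this; linarith) (fun j => hsp k j i)
        (by linarith [abs_le.1 (both k0), abs_le.1 (both k)])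
      nlinarith [mul_nonneg si.le D0]
  set u : ℝ := Real.exp (-(ε / 8 * Real.log h ^ θ')) with hu
  have t1 : Real.log h ^ θ' ≤ Real.log h := by
    simpa using Real.rpow_le_rpow_of_exponent_le H1 hθ1
  have g1 : D ≤ |M| * (h * u) := by
    refine mul_le_mul (le_abs_self M) ?_ (Real.rpow_nonneg h0.le _) (abs_nonneg M)
    rw [sub_eq_add_neg, Real.rpow_add h0, Real.rpow_one, Real.rpow_def_of_pos h0]
    refine mul_le_mul_of_nonneg_left (Real.exp_le_exp.2 ?_) h0.le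
    have q1 := mul_le_mul_of_nonneg_left t1 hε.le
    have q2 : 0 ≤ ε * Real.log h := mul_nonneg hε.le (by linarith)
    linarith
  have g2 : s⁻¹ ≤ u := by
    rw [hs, Real.rpow_def_of_pos n0, ← Real.exp_neg]
    refine Real.exp_le_exp.2 ?_
    have q1 := mul_le_mul_of_nonneg_left hn hε.le
    linarith
  have g3 := mul_le_mul_of_nonneg_left (ce_end hε hθ H1 e3) h0.le
  have g4 := mul_le_mul_of_nonneg_right g2 h0.le
  rw [← hu] at g3
  linarith

end Pool.Agent.Lib.MP_4ffbf9_nt.EF
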