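import Mathlib
import Pool.Agent.Lib.MP_4ffbf9_nt.EF.Defs

set_option autoImplicit false

namespace Pool.Agent.Lib.MP_4ffbf9_nt.EF

open MvPolynomial Pool.Agent.Subspace Pool.Agent.Lib.MP_4ffbf9_nt.PR

/-- Row `r` of the companion matrix of `Q`, multiplied by the leading coefficient. -/
noncomputable def crow {S : Type} [CommRing S] (Q : Polynomial S) (r k : ℕ) : S :=
  if r + 1 < Q.natDegree then (if k = r + 1 then Q.leadingCoeff else 0) else -Q.coeff k

theorem crow_spec {S R : Type} [CommRing S] [CommRing R] (Q : Polynomial S) (γ : S →+* R) (x : R)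
    (hx : Polynomial.eval₂ γ x Q = 0) (r : Fin Q.natDegree) :
    γ Q.leadingCoeff * x * x ^ (r : ℕ) = ∑ k : Fin Q.natDegree, γ (crow Q r k) * x ^ (k : ℕ) := by
  by_cases h : (r : ℕ) + 1 < Q.natDegree
  · rw [Finset.sum_eq_single (⟨r + 1, h⟩ : Fin Q.natDegree)]
    · simp only [crow, h, if_true]
      ring
    · intro k _ hk
      have : (k : ℕ) ≠ r + 1 := fun e => hk (Fin.ext e)
      simp [crow, h, this]
    · simp
  · have hr : Q.natDegree = r + 1 := by have := r.2; omega
    rw [Polynomial.eval₂_eq_sum_range, Finset.sum_range_succ] at hx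
    simp only [crow, h, if_false, map_neg, neg_mul, Finset.sum_neg_distrib]
    rw [Fin.sum_univ_eq_sum_range (fun k => γ (Q.coeff k) * x ^ k), mul_assoc, ← pow_succ', ← hr]
    exact eq_neg_of_add_eq_zero_right hx

theorem crow_prop {S : Type} [CommRing S] (Q : Polynomial S) (r k : ℕ) (p : S → Prop) (h0 : p 0)
    (h1 : ∀ k, p (Q.coeff k)) (h2 : ∀ k, p (-Q.coeff k)) : p (crow Q r k) := by
  unfold crow
  split_ifs
  · exact h1 _
  · exact h0
  · exact h2 _

/-- Multiplication matrices on the monomials below the degrees of the `Q v`. -/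
theorem mats {ι : Type} [Fintype ι] {d L : ℕ} (Q : ι → Polynomial (MvPolynomial (Fin d) ℤ))
    (hpos : ∀ v, 0 < (Q v).natDegree) (hdeg : ∀ v, (Q v).natDegree ≤ L)
    (hc : ∀ v k, ((Q v).coeff k).totalDegree ≤ L) (hl : ∀ v k, l1 ((Q v).coeff k) ≤ 4 ^ L) :
    ∃ (s : ℕ) (b : Fin s → (ι →₀ ℕ)) (i₀ : Fin s)
      (m : ι → Matrix (Fin s) (Fin s) (MvPolynomial (Fin d) ℤ)),
      s ≤ L ^ Fintype.card ι ∧ b i₀ = 0 ∧
      (∀ j i k, (m j i k).totalDegree ≤ Fintype.card ι * L) ∧
      (∀ j i, ∑ k, l1 (m j i k) ≤ 8 ^ (Fintype.card ι * L)) ∧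
      ∀ (R : Type) [CommRing R] (γ : MvPolynomial (Fin d) ℤ →+* R) (π : MvPolynomial ι ℤ →+* R),
        (∀ v, Polynomial.eval₂ γ (π (X v)) (Q v) = 0) → ∀ j,
          Rep γ (fun i => π (monomial (b i) 1)) (γ (∏ v, (Q v).leadingCoeff) * π (X j)) (m j) := by
  classical
  let I : Type := (v : ι) → Fin (Q v).natDegree
  let e : Fin (Fintype.card I) ≃ I := (Fintype.equivFin I).symm
  let P : ι → MvPolynomial (Fin d) ℤ := fun j => ∏ v ∈ Finset.univ.erase j, (Q v).leadingCoeff
  let T : (j : ι) → I → Fin (Q j).natDegree → MvPolynomial (Fin d) ℤ :=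
    fun j β k => P j * crow (Q j) (β j) k
  have hN : ∀ j : ι, (Finset.univ.erase j).card + 1 = Fintype.card ι := fun j => by
    rw [Finset.card_erase_add_one (Finset.mem_univ j), Finset.card_univ]
  have hTd : ∀ j β k, (T j β k).totalDegree ≤ Fintype.card ι * L := by
    intro j β k
    refine (totalDegree_mul _ _).trans ?_
    rw [← hN j, add_mul, one_mul]
    refine add_le_add ((totalDegree_finsetProd _ _).trans ?_) ?_
    · exact (Finset.sum_le_card_nsmul _ _ L fun v _ => hc v _).trans (by simp)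
    · exact crow_prop _ _ _ (fun a => totalDegree a ≤ L) (by simp) (hc j)
        fun k => by rw [totalDegree_neg]; exact hc j k
  have hTl : ∀ j β k, l1 (T j β k) ≤ 4 ^ (Fintype.card ι * L) := by
    intro j β k
    refine (l1_mul_le _ _).trans ?_
    rw [← hN j, add_mul, one_mul, pow_add]
    refine mul_le_mul ((l1_prod_le _ _).trans ?_) ?_ (l1_nonneg _) (by positivity)
    · refine (Finset.prod_le_prod (fun v _ => l1_nonneg _) fun v _ => hl v _).trans ?_
      rw [Finset.prod_const, ← pow_mul, mul_comm]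
    · exact crow_prop _ _ _ (fun a => l1 a ≤ 4 ^ L) (by simp) (hl j)
        fun k => by rw [l1_neg]; exact hl j k
  refine ⟨Fintype.card I, fun i => Finsupp.equivFunOnFinite.symm fun v => (e i v : ℕ),
    e.symm fun v => ⟨0, hpos v⟩,
    fun j i i' => ∑ k, if e.symm (Function.update (e i) j k) = i' then T j (e i) k else 0,
    ?_, ?_, ?_, ?_, ?_⟩
  · rw [Fintype.card_pi]
    refine (Finset.prod_le_pow_card _ _ L fun v _ => ?_).trans (by simp)
    simpa using hdeg v
  · ext v
    simp
  · intro j i i'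
    refine totalDegree_finsetSum_le fun k _ => ?_
    split_ifs
    · exact hTd _ _ _
    · simp
  · intro j i
    refine (Finset.sum_le_sum fun i' _ => l1_sum_le _ _).trans ?_
    rw [Finset.sum_comm]
    have h1 : ∀ k, ∑ i', l1 (if e.symm (Function.update (e i) j k) = i' then T j (e i) k else 0)
        ≤ 4 ^ (Fintype.card ι * L) := fun k => by
      simp only [apply_ite l1, l1_zero, Finset.sum_ite_eq, Finset.mem_univ, if_true]
      exact hTl _ _ _
    refine (Finset.sum_le_card_nsmul _ _ _ fun k _ => h1 k).trans ?_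
    have h2 : (Q j).natDegree ≤ 2 ^ (Fintype.card ι * L) :=
      ((hdeg j).trans (Nat.le_mul_of_pos_left L (by rw [← hN j]; omega))).trans
        Nat.lt_two_pow_self.le
    rw [Finset.card_univ, Fintype.card_fin, nsmul_eq_mul, show (8 : ℝ) = 2 * 4 by norm_num, mul_pow]
    exact mul_le_mul_of_nonneg_right (by exact_mod_cast h2) (by positivity)
  · intro R _ γ π hQ j i
    have hω : ∀ β : I, π (monomial (Finsupp.equivFunOnFinite.symm fun v => (β v : ℕ)) 1)
        = π (X j) ^ (β j : ℕ) * ∏ v ∈ Finset.univ.erase j, π (X v) ^ (β v : ℕ) := fun β => by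
      rw [monomial_eq, C_1, one_mul, Finsupp.prod_fintype _ _ (by simp), map_prod,
        ← Finset.mul_prod_erase _ _ (Finset.mem_univ j)]
      simp
    simp only [map_sum, Finset.sum_mul]
    rw [Finset.sum_comm]
    simp only [apply_ite γ, map_zero, ite_mul, zero_mul, Finset.sum_ite_eq, Finset.mem_univ,
      if_true, Equiv.apply_symm_apply, hω, Function.update_self]
    have h3 : ∀ k : Fin (Q j).natDegree, ∏ v ∈ Finset.univ.erase j,
        π (X v) ^ (Function.update (e i) j k v : ℕ)
        = ∏ v ∈ Finset.univ.erase j, π (X v) ^ (e i v : ℕ) := fun k =>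
      Finset.prod_congr rfl fun v hv => by
        rw [Function.update_of_ne (Finset.ne_of_mem_erase hv)]
    simp only [h3, T, map_mul]
    rw [← Finset.mul_prod_erase _ _ (Finset.mem_univ j), map_mul]
    have h4 := crow_spec (Q j) γ _ (hQ j) (e i j)
    calc _ = γ (P j) * (∏ v ∈ Finset.univ.erase j, π (X v) ^ (e i v : ℕ)) *
          (γ (Q j).leadingCoeff * π (X j) * π (X j) ^ (e i j : ℕ)) := by simp only [P]; ring
      _ = _ := by
        rw [h4, Finset.mul_sum]
        exact Finset.sum_congr rfl fun k _ => by ring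

end Pool.Agent.Lib.MP_4ffbf9_nt.EF
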