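import Mathlib
import Pool.Agent.Lib.MP_4ffbf9_nt.EF.Defs

set_option autoImplicit false

namespace Pool.Agent.Lib.MP_4ffbf9_nt.EF

open MvPolynomial Pool.Agent.Subspace Pool.Agent.Lib.MP_4ffbf9_nt.PR

theorem sat_aux {ι : Type} [Fintype ι] {d : ℕ} (p : ι → ℚ) (q : Fin d → ℚ)
    (T : ι → MvPolynomial (Fin d ⊕ ι) ℚ) (hd : ∀ v w, w ≠ v → pderiv (Sum.inr w) (T v) = 0)
    (h0 : ∀ v, eval (Sum.elim q p) (T v) = 0)
    (h1 : ∀ v, eval (Sum.elim q p) (pderiv (Sum.inr v) (T v)) ≠ 0) :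
    ∃ PP : Ideal (MvPolynomial (Fin d ⊕ ι) ℚ), (∀ v, T v ∈ PP) ∧
      (∀ f g, eval (Sum.elim q p) f ≠ 0 → f * g ∈ PP → g ∈ PP) ∧
      ∀ (μ : ℕ) (b : MvPolynomial (Fin d) ℚ) (F : MvPolynomial (Fin d ⊕ ι) ℚ),
        VanN (Sum.elim q p) μ F → rename Sum.inl b - F ∈ PP → VanN q μ b := by
  classical
  set I : Ideal (MvPolynomial (Fin d ⊕ ι) ℚ) := Ideal.span (Set.range T) with hI
  let PP : Ideal (MvPolynomial (Fin d ⊕ ι) ℚ) :=
    { carrier := {F | ∃ s, eval (Sum.elim q p) s ≠ 0 ∧ s * F ∈ I}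
      zero_mem' := ⟨1, by simp, by simp⟩
      add_mem' := by
        rintro f g ⟨s, hs, hf⟩ ⟨s', hs', hg⟩
        refine ⟨s * s', by simp [hs, hs'], ?_⟩
        have e : s * s' * (f + g) = s' * (s * f) + s * (s' * g) := by ring
        exact e ▸ I.add_mem (I.mul_mem_left _ hf) (I.mul_mem_left _ hg)
      smul_mem' := by
        rintro c f ⟨s, hs, hf⟩
        exact ⟨s, hs, by rw [smul_eq_mul, mul_left_comm]; exact I.mul_mem_left _ hf⟩ }
  have hP : ∀ F, F ∈ PP ↔ ∃ s, eval (Sum.elim q p) s ≠ 0 ∧ s * F ∈ I := fun _ => Iff.rfl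
  set s : MvPolynomial (Fin d ⊕ ι) ℚ := ∏ v, pderiv (Sum.inr v) (T v) with hs
  let a : Fin d → Fin d ⊕ ι → MvPolynomial (Fin d ⊕ ι) ℚ := fun i =>
    Sum.elim (fun j => if j = i then s else 0) fun v =>
      -(pderiv (Sum.inl i) (T v) * ∏ w ∈ Finset.univ.erase v, pderiv (Sum.inr w) (T w))
  have hD : ∀ i f, ∑ j, a i j * pderiv j f = mkDerivation ℚ (a i) f := fun i f => by
    simpa [mkDerivation_X] using (der_chain (AlgHom.id ℚ _) (mkDerivation ℚ (a i)) f).symm
  have hT : ∀ i v, mkDerivation ℚ (a i) (T v) = 0 := fun i v => by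
    rw [← hD, Fintype.sum_sum_type, Finset.sum_eq_single i (fun j _ h => by simp [a, h]) (by simp),
      Finset.sum_eq_single v (fun w _ h => by rw [hd v w h, mul_zero]) (by simp)]
    simp only [a, Sum.elim_inl, Sum.elim_inr, if_true]
    rw [hs, ← Finset.prod_erase_mul _ _ (Finset.mem_univ v)]
    ring
  have hDI : ∀ i, ∀ f ∈ I, mkDerivation ℚ (a i) f ∈ I := fun i f hf => by
    induction hf using Submodule.span_induction with
    | mem x hx => obtain ⟨v, rfl⟩ := hx; rw [hT]; exact I.zero_mem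
    | zero => simp
    | add x y _ _ h h' => rw [map_add]; exact I.add_mem h h'
    | smul c x hx h =>
      rw [smul_eq_mul, Derivation.leibniz, smul_eq_mul, smul_eq_mul]
      exact I.add_mem (I.mul_mem_left _ h) (I.mul_mem_right _ hx)
  have hI0 : ∀ f ∈ I, eval (Sum.elim q p) f = 0 := fun f hf =>
    (Ideal.span_le (I := RingHom.ker (eval (Sum.elim q p)))).2
      (by rintro _ ⟨v, rfl⟩; exact h0 v) hf
  refine ⟨PP, fun v => ⟨1, by simp, I.mul_mem_left _ (Ideal.subset_span ⟨v, rfl⟩)⟩, ?_,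
    fun μ b F hF hb => ?_⟩
  · rintro f g hf ⟨s', h, h'⟩
    exact ⟨s' * f, by simp [h, hf], by rwa [mul_assoc]⟩
  have := transfer PP (fun i => X (Sum.inl i)) s a ?_ ?_ (Sum.elim q p) ?_ ?_ μ b 1 F (by simp) hF
    (by rwa [one_mul, rename_eq_aeval] at *)
  · simpa using this
  · rintro i f ⟨s', h, h'⟩
    refine ⟨s' * s', mul_ne_zero h h ∘ (by simp), ?_⟩
    have e : s' * s' * ∑ j, a i j * pderiv j f = s' * mkDerivation ℚ (a i) (s' * f) -
        mkDerivation ℚ (a i) s' * (s' * f) := by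
      rw [hD, Derivation.leibniz, smul_eq_mul, smul_eq_mul]; ring
    exact e ▸ I.sub_mem (I.mul_mem_left _ (hDI i _ h')) (I.mul_mem_left _ h')
  · intro i b
    rw [hD, der_chain, Finset.sum_eq_single i (fun j _ h => by simp [mkDerivation_X, a, h])
      (by simp)]
    simp [mkDerivation_X, a]
  · rintro f ⟨s', h, h'⟩
    simpa [h] using hI0 _ h'
  · rw [hs, map_prod]
    exact Finset.prod_ne_zero_iff.2 fun v _ => h1 v

theorem sat_der {ι : Type} {d : ℕ} (w : ι) (x : MvPolynomial (Fin d ⊕ ι) ℚ)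
    (T : Polynomial (MvPolynomial (Fin d) ℤ)) :
    pderiv (Sum.inr w) (T.eval₂ (eval₂Hom (Int.castRingHom _) fun i => X (Sum.inl i)) x) =
      (Polynomial.derivative T).eval₂ (eval₂Hom (Int.castRingHom _) fun i => X (Sum.inl i)) x *
        pderiv (Sum.inr w) x := by
  have h : ∀ c : MvPolynomial (Fin d) ℤ, pderiv (Sum.inr w) (eval₂Hom (Int.castRingHom
      (MvPolynomial (Fin d ⊕ ι) ℚ)) (fun i => X (Sum.inl i)) c) = 0 := fun c => by
    induction c using MvPolynomial.induction_on with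
    | C a => simp
    | add p q hp hq => rw [map_add, map_add, hp, hq, add_zero]
    | mul_X p i hp => rw [map_mul, Derivation.leibniz, hp]; simp
  induction T using Polynomial.induction_on' with
  | add p q hp hq => simp only [Polynomial.eval₂_add, map_add, hp, hq, add_mul]
  | monomial n c =>
    rw [Polynomial.derivative_monomial, Polynomial.eval₂_monomial, Polynomial.eval₂_monomial,
      Derivation.leibniz, h, Derivation.leibniz_pow, map_mul, map_natCast]
    simp only [smul_eq_mul, nsmul_eq_mul]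
    ring

theorem sat_eval {ι : Type} {d : ℕ} (p : ι → ℚ) (q : Fin d → ℚ) (v : ι)
    (T : Polynomial (MvPolynomial (Fin d) ℤ)) :
    eval (Sum.elim q p) (T.eval₂ (eval₂Hom (Int.castRingHom _) fun i => X (Sum.inl i))
      (X (Sum.inr v) : MvPolynomial (Fin d ⊕ ι) ℚ)) = (sp q T).eval (p v) := by
  have e : (eval (Sum.elim q p)).comp (eval₂Hom (Int.castRingHom (MvPolynomial (Fin d ⊕ ι) ℚ))
      fun i => X (Sum.inl i)) = eval₂Hom (Int.castRingHom ℚ) q :=
    MvPolynomial.ringHom_ext (fun r => by simp) fun i => by simp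
  rw [Polynomial.hom_eval₂, e, sp, Polynomial.eval_map, eval_X, Sum.elim_inr]

/-- The saturation at the point of the ideal of the `Q v`, and the transfer of orders. -/
theorem sat {ι : Type} [Fintype ι] {d : ℕ} (p : ι → ℚ) (q : Fin d → ℚ)
    (Q : ι → Polynomial (MvPolynomial (Fin d) ℤ)) (h0 : ∀ v, (sp q (Q v)).eval (p v) = 0)
    (h1 : ∀ v, (Polynomial.derivative (sp q (Q v))).eval (p v) ≠ 0) :
    ∃ PP : Ideal (MvPolynomial (Fin d ⊕ ι) ℚ),
      (∀ v, Polynomial.eval₂ (eval₂Hom (Int.castRingHom _) fun i => X (Sum.inl i))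
        (X (Sum.inr v)) (Q v) ∈ PP) ∧
      (∀ f g, eval (Sum.elim q p) f ≠ 0 → f * g ∈ PP → g ∈ PP) ∧
      ∀ (μ : ℕ) (b : MvPolynomial (Fin d) ℚ) (F : MvPolynomial (Fin d ⊕ ι) ℚ),
        VanN (Sum.elim q p) μ F → rename Sum.inl b - F ∈ PP → VanN q μ b := by
  classical
  refine sat_aux p q _ (fun v w h => ?_) (fun v => (sat_eval p q v _).trans (h0 v)) fun v => ?_
  · rw [sat_der, pderiv_X_of_ne (fun e => h (Sum.inr_injective e).symm), mul_zero]
  · rw [sat_der, pderiv_X_self, mul_one, sat_eval, sp, ← Polynomial.derivative_map]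
    exact h1 v

end Pool.Agent.Lib.MP_4ffbf9_nt.EF
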