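import Mathlib
import Pool.Agent.Lib.MP_4ffbf9_nt.EF.Mats
import Pool.Agent.Lib.MP_4ffbf9_nt.EF.Sat
import Pool.Agent.Lib.MP_4ffbf9_nt.EF.Char

set_option autoImplicit false

namespace Pool.Agent.Lib.MP_4ffbf9_nt.EF

open MvPolynomial Pool.Agent.Subspace Pool.Agent.Lib.MP_4ffbf9_nt.PR

theorem vanN_inr {ι : Type} {d μ : ℕ} (p : ι → ℚ) (q : Fin d → ℚ) {W : MvPolynomial ι ℚ}
    (h : VanN p μ W) : VanN (Sum.elim q p) μ (rename Sum.inr W) := by
  have h1 : (shift (Sum.elim q p)).comp (rename Sum.inr) =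
      (aeval fun i => (X (Sum.inr i) : MvPolynomial (Fin d ⊕ ι) ℚ)).comp (shift p) := by
    ext i : 1
    simp
  have h2 := DFunLike.congr_fun h1 W
  simp only [AlgHom.comp_apply] at h2
  rw [VanN, h2]
  exact IdxGe.aeval h fun i => idxGe_X _ _

/-- The norm down to the variables of `q`. -/
theorem norm_eff {ι : Type} [Fintype ι] {d L r D μ : ℕ} {B : ℝ} (p : ι → ℚ) (q : Fin d → ℚ)
    (Q : ι → Polynomial (MvPolynomial (Fin d) ℤ)) (hQ : ∀ v, Good L q (p v) (Q v))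
    (w : Fin r → MvPolynomial ι ℤ) (u : ℚ) (hB : 1 ≤ B) (hd : ∀ l, (w l).totalDegree ≤ D)
    (hl : ∀ l, l1 (w l) ≤ B) (h0 : ∃ l, eval p (map (Int.castRingHom ℚ) (w l)) ≠ 0)
    (hv : VanN p μ (∑ l : Fin r, C (u ^ (l : ℕ)) * map (Int.castRingHom ℚ) (w l))) :
    ∃ (s : ℕ) (V : Fin (s * r + 1) → MvPolynomial (Fin d) ℤ), s ≤ L ^ Fintype.card ι ∧
      (∃ j, V j ≠ 0) ∧ (∀ j, (V j).totalDegree ≤ s * (Fintype.card ι * L * D + r + 1)) ∧
      (∀ j, l1 (V j) ≤ s.factorial * (1 + r * (B * (8 ^ (Fintype.card ι * L)) ^ D)) ^ s) ∧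
      VanN q μ (∑ j : Fin (s * r + 1), C (u ^ (j : ℕ)) * map (Int.castRingHom ℚ) (V j)) := by
  classical
  have hpos : ∀ v, 0 < (Q v).natDegree := fun v => by
    refine Nat.pos_of_ne_zero fun h => (hQ v).simple ?_
    rw [Polynomial.eq_C_of_natDegree_eq_zero h]
    simp [sp]
  obtain ⟨s, b, i₀, m, hs, hb0, hmd, hml, hrep⟩ := mats Q hpos (fun v => (hQ v).deg)
    (fun v => (hQ v).cdeg) fun v => (hQ v).cl
  obtain ⟨PP, hP1, hP2, hP3⟩ := sat p q Q (fun v => (hQ v).root) fun v => (hQ v).simple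
  let γ0 : MvPolynomial (Fin d) ℤ →+* MvPolynomial (Fin d ⊕ ι) ℚ :=
    eval₂Hom (Int.castRingHom _) fun i => X (Sum.inl i)
  let π0 : MvPolynomial ι ℤ →+* MvPolynomial (Fin d ⊕ ι) ℚ :=
    eval₂Hom (Int.castRingHom _) fun i => X (Sum.inr i)
  have eγ : ∀ f, γ0 f = rename Sum.inl (map (Int.castRingHom ℚ) f) := fun f => by
    have : γ0 = (rename Sum.inl).toRingHom.comp (map (Int.castRingHom ℚ)) := by
      ext1
      · exact RingHom.ext_int _ _
      · simp [γ0]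
    rw [this]
    rfl
  have eπ : ∀ f, π0 f = rename Sum.inr (map (Int.castRingHom ℚ) f) := fun f => by
    have : π0 = (rename Sum.inr).toRingHom.comp (map (Int.castRingHom ℚ)) := by
      ext1
      · exact RingHom.ext_int _ _
      · simp [π0]
    rw [this]
    rfl
  let mk := Ideal.Quotient.mk PP
  set Δ := ∏ v, (Q v).leadingCoeff with hΔ
  have hr := hrep _ (mk.comp γ0) (mk.comp π0) fun v => by
    have := Ideal.Quotient.eq_zero_iff_mem.2 (hP1 v)
    rw [Polynomial.hom_eval₂] at this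
    rwa [RingHom.comp_apply, eπ, map_X, rename_X]
  have hΔd : Δ.totalDegree ≤ Fintype.card ι * L :=
    (totalDegree_finsetProd _ _).trans ((Finset.sum_le_sum fun v _ => (hQ v).cdeg _).trans (by simp))
  have hΔl : l1 Δ ≤ 8 ^ (Fintype.card ι * L) := by
    refine (l1_prod_le _ _).trans ((Finset.prod_le_prod (fun _ _ => l1_nonneg _)
      fun v _ => (hQ v).cl _).trans ?_)
    rw [Finset.prod_const, Finset.card_univ, ← pow_mul, mul_comm]
    exact pow_le_pow_left₀ (by norm_num) (by norm_num) _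
  choose M hM hb using fun l => rep_poly hr hΔd hmd hΔl hml (hd l)
  obtain ⟨V, hV0, hVd, hVl, hdvd⟩ := charN (B := B * (8 ^ (Fintype.card ι * L)) ^ D)
    (by positivity) M (fun l i k => (hb l i k).1)
    (fun l i k => (hb l i k).2.trans (mul_le_mul_of_nonneg_right (hl l) (by positivity)))
    (mk.comp γ0) _ i₀ (by rw [hb0]; simp) _ hM (by
      obtain ⟨l, hl0⟩ := h0
      refine ⟨l, mem_nonZeroDivisors_iff_left.2 fun g hg => ?_⟩
      obtain ⟨g, rfl⟩ := Ideal.Quotient.mk_surjective g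
      refine Ideal.Quotient.eq_zero_iff_mem.2 (hP2 (γ0 Δ ^ D * π0 (w l)) g ?_
        (Ideal.Quotient.eq_zero_iff_mem.1 (by simpa using hg)))
      rw [map_mul, map_pow, eγ, eπ, eval_rename, eval_rename, hΔ, map_prod, map_prod]
      refine mul_ne_zero (pow_ne_zero _ (Finset.prod_ne_zero_iff.2 fun v _ => ?_)) hl0
      rw [eval_map]
      exact (hQ v).lead)
  refine ⟨s, V, hs, hV0, hVd, hVl, ?_⟩
  obtain ⟨H, hH⟩ := hdvd (mk (C u))
  obtain ⟨G, rfl⟩ := Ideal.Quotient.mk_surjective H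
  refine hP3 μ _ _ ((vanN_inr p q hv).mul_left (γ0 Δ ^ D * G)) (Ideal.Quotient.eq.1 ?_)
  simp only [map_sum, map_mul, rename_C, ← eγ, ← eπ, map_pow]
  refine hH.trans ?_
  rw [Finset.sum_mul, Finset.mul_sum]
  exact Finset.sum_congr rfl fun l _ => by simp only [RingHom.comp_apply, mk]; ring

end Pool.Agent.Lib.MP_4ffbf9_nt.EF
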