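import Mathlib
import Pool.Agent.Lib.MP_4ffbf9_nt.EF.Defs

set_option autoImplicit false

namespace Pool.Agent.Lib.MP_4ffbf9_nt.EF

open MvPolynomial Pool.Agent.Subspace Pool.Agent.Lib.MP_4ffbf9_nt.PR

theorem mul_le_pow_add {A : ℕ} (hA : 2 ≤ A) (c k : ℕ) : c * A ^ k ≤ A ^ (c + k) := by
  rw [pow_add]
  exact Nat.mul_le_mul_right _ (Nat.lt_two_pow_self.le.trans (Nat.pow_le_pow_left hA c))

/-- `PR.zero_lemma` with polynomial dependence on the size. -/
theorem zero_eff (d : ℕ) : ∃ κ : ℕ, ∀ (A n : ℕ) (V : MvPolynomial (Fin d) ℤ) (t : Fin d → ℚ),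
    2 ≤ A → 0 < n → V ≠ 0 → V.totalDegree ≤ A * n → l1 V ≤ 2 ^ (A * n) →
    IdxGe (fun _ => (1 : ℝ)) n (shift t (map (Int.castRingHom ℚ) V)) → Rel (A ^ κ) t := by
  classical
  induction d with
  | zero =>
    refine ⟨0, fun A n V t _ hn hV _ _ hv => ?_⟩
    obtain ⟨ν, hν⟩ := support_nonempty.mpr (shift_ne_zero t (P := map (Int.castRingHom ℚ) V)
      fun h => hV (map_injective _ (Int.castRingHom ℚ).injective_int (by rw [h, map_zero])))
    have := hv ν hν
    rw [Subsingleton.elim ν 0, map_zero] at this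
    have h2 : (0 : ℝ) < n := by exact_mod_cast hn
    linarith
  | succ d ih =>
    obtain ⟨κ, hih⟩ := ih
    refine ⟨(8 * d + 10 + 1) + (12 * d + 48 + 2) * κ, fun A n V t hA hn hV hD hL hv => ?_⟩
    obtain ⟨W, hWV, hWv, hW⟩ := exists_clean t n V hV hv
    have hW0 : W ≠ 0 := ne_zero_of_dvd_ne_zero hV hWV
    have hWD : W.totalDegree ≤ A * n := (totalDegree_le_of_dvd_of_isDomain hWV hV).trans hD
    have h4 : ∀ U : MvPolynomial (Fin (d + 1)) ℤ, U.totalDegree ≤ A * n →
        (4 : ℝ) ^ ((d + 1) * U.totalDegree) ≤ 2 ^ (2 * ((d + 1) * (A * n))) := fun U hU => by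
      rw [pow_mul (2 : ℝ) 2, show (2 : ℝ) ^ 2 = 4 by norm_num]
      exact pow_le_pow_right₀ (by norm_num) (Nat.mul_le_mul_left _ hU)
    have hWL : l1 W ≤ 2 ^ ((2 * d + 3) * (A * n)) := by
      have := (l1_pow_le_of_dvd hV (k := 1) (by simpa using hWV)).2
      rw [pow_one] at this
      refine this.trans ((mul_le_mul (h4 V hD) hL (l1_nonneg _) (by positivity)).trans ?_)
      rw [← pow_add]
      exact pow_le_pow_right₀ one_le_two (le_of_eq (by ring))
    by_cases hc : ∃ G : MvPolynomial (Fin (d + 1)) ℤ, 0 < G.totalDegree ∧ G ^ (n / 2 + 1) ∣ W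
    · obtain ⟨G, hG, hGW⟩ := hc
      obtain ⟨h5, h6⟩ := l1_pow_le_of_dvd hW0 hGW
      have hn2 : A * n ≤ A * (2 * (n / 2 + 1)) := Nat.mul_le_mul_left _ (by omega)
      refine Rel.mono (L := (8 * d + 10) * A) ⟨G, by rintro rfl; simp at hG, ?_, ?_,
        hW G ((dvd_pow_self _ (Nat.succ_ne_zero _)).trans hGW) hG⟩ ?_
      · refine le_trans (Nat.le_of_mul_le_mul_left (c := n / 2 + 1) (b := 2 * A) ?_
          (Nat.succ_pos _)) (Nat.mul_le_mul_right _ (by omega))
        nlinarith
      · refine le_of_pow_le_pow_left₀ (Nat.succ_ne_zero (n / 2)) (by positivity) (h6.trans ?_)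
        refine (mul_le_mul (h4 W hWD) hWL (l1_nonneg _) (by positivity)).trans ?_
        rw [← pow_add, ← pow_mul]
        refine pow_le_pow_right₀ one_le_two ?_
        calc 2 * ((d + 1) * (A * n)) + (2 * d + 3) * (A * n) = (4 * d + 5) * (A * n) := by ring
          _ ≤ (4 * d + 5) * (A * (2 * (n / 2 + 1))) := Nat.mul_le_mul_left _ hn2
          _ = _ := by rw [Nat.succ_eq_add_one]; ring
      · have := mul_le_pow_add hA (8 * d + 10) 1
        rw [pow_one] at this
        exact this.trans (Nat.pow_le_pow_right (by omega) (Nat.le_add_right _ _))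
    · push Not at hc
      obtain ⟨Q, r, hQ, hr, hQD, hQL, hQv⟩ := elim_step t hW0 (J := n / 2) (Nat.div_le_self _ _)
        hWD hWL hWv hc
      have hnn : n * n ≤ 2 * (n * (n - n / 2)) := by
        rw [mul_left_comm]
        exact Nat.mul_le_mul_left _ (by omega)
      have hnA : 2 * n ≤ A * n := Nat.mul_le_mul_right _ hA
      have hr' : r ≤ 3 * (A * n) := by omega
      have hkey : (6 * d + 24) * (A * n * (A * n)) ≤ A ^ (12 * d + 48 + 2) * (n * (n - n / 2)) :=
        calc (6 * d + 24) * (A * n * (A * n)) = (6 * d + 24) * A ^ 2 * (n * n) := by ring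
          _ ≤ (6 * d + 24) * A ^ 2 * (2 * (n * (n - n / 2))) := Nat.mul_le_mul_left _ hnn
          _ = (12 * d + 48) * A ^ 2 * (n * (n - n / 2)) := by ring
          _ ≤ _ := Nat.mul_le_mul_right _ (mul_le_pow_add hA _ _)
      have hA' : 2 ≤ A ^ (12 * d + 48 + 2) :=
        hA.trans (Nat.le_self_pow (by omega) A)
      obtain ⟨Ω, h0, h1, h2, h3⟩ := hih _ (n * (n - n / 2)) Q _ hA' (Nat.mul_pos hn (by omega)) hQ
        (hQD.trans (le_trans (by
          calc r * (A * n + n) ≤ 3 * (A * n) * (2 * (A * n)) := Nat.mul_le_mul hr' (by omega)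
            _ = 6 * (A * n * (A * n)) := by ring
            _ ≤ _ := Nat.mul_le_mul_right _ (by omega)) hkey))
        (hQL.trans (by
          rw [← pow_add, ← pow_add, ← pow_mul, ← pow_add]
          refine pow_le_pow_right₀ one_le_two (le_trans ?_ hkey)
          calc r * r + (n + A * n + (2 * d + 3) * (A * n)) * r
              ≤ 3 * (A * n) * (3 * (A * n)) +
                (A * n + A * n + (2 * d + 3) * (A * n)) * (3 * (A * n)) :=
                Nat.add_le_add (Nat.mul_le_mul hr' hr') (Nat.mul_le_mul (by omega) hr')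
            _ = _ := by ring)) hQv
      refine Rel.mono (L := (A ^ (12 * d + 48 + 2)) ^ κ) ⟨rename Fin.succ Ω, fun h => h0
        (rename_injective _ (Fin.succ_injective d) (by rw [h, map_zero])),
        (totalDegree_rename_le _ _).trans h1, (l1_rename_le _).trans h2, ?_⟩ ?_
      · rw [aeval_rename]
        exact h3
      · rw [← pow_mul]
        exact Nat.pow_le_pow_right (by omega) (Nat.le_add_left _ _)

end Pool.Agent.Lib.MP_4ffbf9_nt.EF
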