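import Mathlib
import Pool.Agent.Lib.MP_4ffbf9_nt.EF.Norm
import Pool.Agent.Lib.MP_4ffbf9_nt.EF.ZL

set_option autoImplicit false

namespace Pool.Agent.Lib.MP_4ffbf9_nt.EF

open MvPolynomial Pool.Agent.Subspace Pool.Agent.Lib.MP_4ffbf9_nt.PR

theorem st_fac {a s : ℕ} (hs : s ≤ a) : s.factorial ≤ 2 ^ (a * a) :=
  calc s.factorial ≤ s ^ s := Nat.factorial_le_pow s
    _ ≤ (2 ^ a) ^ s := Nat.pow_le_pow_left (hs.trans Nat.lt_two_pow_self.le) _
    _ ≤ (2 ^ a) ^ a := Nat.pow_le_pow_right (by positivity) hs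
    _ = _ := by rw [← pow_mul]

theorem st_pow {a n i j : ℕ} (ha : 4 ≤ a) (hn : 1 ≤ n) (h : i ≤ j) :
    a ^ i ≤ a ^ j * n ∧ a ^ i * n ≤ a ^ j * n ∧ 4 * (a ^ j * n) ≤ a ^ (j + 1) * n := by
  have h1 : a ^ i ≤ a ^ j := Nat.pow_le_pow_right (by omega) h
  refine ⟨h1.trans (Nat.le_mul_of_pos_right _ hn), Nat.mul_le_mul_right _ h1, ?_⟩
  rw [pow_succ', mul_assoc]
  exact Nat.mul_le_mul_right _ ha

theorem st_deg {a s N A r n : ℕ} (ha : 4 ≤ a) (hs : s ≤ a) (hN : N ≤ a) (hA : A ≤ a) (hr : r ≤ a)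
    (hn : 1 ≤ n) : s * (N * A * (A * n) + r + 1) ≤ a ^ 5 * n := by
  have h1 : N * A * (A * n) ≤ a ^ 3 * n :=
    calc N * A * (A * n) ≤ a * a * (a * n) := by gcongr
      _ = _ := by ring
  obtain ⟨h2, -, h3⟩ := st_pow ha hn (by norm_num : 1 ≤ 3)
  rw [pow_one] at h2
  calc s * (N * A * (A * n) + r + 1) ≤ a * (a ^ (3 + 1) * n) := Nat.mul_le_mul hs (by omega)
    _ = _ := by ring

theorem st_l1 {a s N A r n : ℕ} (ha : 4 ≤ a) (hs : s ≤ a) (hN : N ≤ a) (hA : A ≤ a) (hr : r ≤ a)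
    (hn : 1 ≤ n) :
    s.factorial * (1 + r * (2 ^ (A * n) * (8 ^ (N * A)) ^ (A * n))) ^ s ≤ 2 ^ (a ^ 7 * n) := by
  have h1 : 3 * (N * A * (A * n)) ≤ a ^ 4 * n :=
    calc 3 * (N * A * (A * n)) ≤ a * (a * a * (a * n)) := by gcongr; omega
      _ = _ := by ring
  obtain ⟨h2, h3, h4⟩ := st_pow ha hn (by norm_num : 1 ≤ 4)
  rw [pow_one] at h2 h3
  have h5 : A * n ≤ a * n := Nat.mul_le_mul_right _ hA
  have h6 : r * (2 ^ (A * n) * (8 ^ (N * A)) ^ (A * n)) ≤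
      2 ^ (a + (A * n + 3 * (N * A * (A * n)))) := by
    rw [pow_add, pow_add, pow_mul 2 3, ← pow_mul 8]
    exact Nat.mul_le_mul_right _ (hr.trans Nat.lt_two_pow_self.le)
  have h7 : 1 + r * (2 ^ (A * n) * (8 ^ (N * A)) ^ (A * n)) ≤ 2 ^ (a ^ (4 + 1) * n) := by
    have := Nat.one_le_two_pow (n := a + (A * n + 3 * (N * A * (A * n))))
    refine le_trans ?_ (Nat.pow_le_pow_right two_pos
      (by omega : a + (A * n + 3 * (N * A * (A * n))) + 1 ≤ _))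
    rw [pow_succ]
    omega
  obtain ⟨h8, -, h9⟩ := st_pow ha hn (by norm_num : 2 ≤ 6)
  refine (Nat.mul_le_mul (st_fac hs) ((Nat.pow_le_pow_left h7 s).trans
    (Nat.pow_le_pow_right (by positivity) hs))).trans ?_
  rw [← pow_mul, ← pow_add, show a ^ (4 + 1) * n * a = a ^ 6 * n by ring, ← sq]
  exact Nat.pow_le_pow_right two_pos (le_trans (by omega) h9)

theorem st_wr {a c n : ℕ} (ha : 4 ≤ a) (hc : c ≤ a) (hn : 1 ≤ n) :
    c.factorial * (2 ^ (a ^ 5 * n) * 2 ^ (a ^ 7 * n)) ^ c ≤ 2 ^ (a ^ 9 * n) := by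
  obtain ⟨h1, -, h2⟩ := st_pow ha hn (by norm_num : 2 ≤ 8)
  obtain ⟨-, h3, -⟩ := st_pow ha hn (by norm_num : 6 ≤ 8)
  refine (Nat.mul_le_mul (st_fac hc) (Nat.pow_le_pow_right (by positivity) hc)).trans ?_
  rw [← pow_add, ← pow_mul, ← pow_add,
    show (a ^ 5 * n + a ^ 7 * n) * a = a ^ 6 * n + a ^ 8 * n by ring, ← sq]
  exact Nat.pow_le_pow_right two_pos (le_trans (by omega) h2)

/-- Norm, Wronskian and zero lemma. -/
theorem step (ι : Type) [Fintype ι] : ∃ κ : ℕ, 1 ≤ κ ∧ ∀ (d A n r : ℕ) (p : ι → ℚ) (q : Fin d → ℚ)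
    (Q : ι → Polynomial (MvPolynomial (Fin d) ℤ)) (w : Fin r → MvPolynomial ι ℤ) (u : ℚ),
    d ≤ Fintype.card ι → 2 ≤ A → A ^ κ ≤ n → r ≤ A → (∀ v, Good A q (p v) (Q v)) →
    (∀ l, (w l).totalDegree ≤ A * n) → (∀ l, l1 (w l) ≤ 2 ^ (A * n)) →
    (∃ l, eval p (map (Int.castRingHom ℚ) (w l)) ≠ 0) →
    VanN p ((n + 1) / 2) (∑ l : Fin r, C (u ^ (l : ℕ)) * map (Int.castRingHom ℚ) (w l)) →
    2 ^ (A ^ κ * n) < u.den → Rel (A ^ κ) q := by
  choose z hz using zero_eff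
  set N := Fintype.card ι with hN
  refine ⟨(N + 2) * (10 * (1 + ∑ d ∈ Finset.range (N + 1), z d)), Nat.mul_pos (by omega)
    (by omega), fun d A n r p q Q w u hd hA hn hr hQ hw hl h0 hv hu => ?_⟩
  have zd : z d ≤ ∑ d ∈ Finset.range (N + 1), z d :=
    Finset.single_le_sum (f := z) (fun _ _ => Nat.zero_le _) (Finset.mem_range.2 (by omega))
  rw [pow_mul A] at hn hu ⊢
  have hu' : ((2 ^ ((A ^ (N + 2)) ^ 7 * n) : ℕ) : ℝ) < u.den :=
    Nat.cast_lt.2 (lt_of_le_of_lt (Nat.pow_le_pow_right two_pos (Nat.mul_le_mul_right _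
      (Nat.pow_le_pow_right (by positivity) (by omega)))) hu)
  obtain ⟨s, V, hs, ⟨j0, hj0⟩, v1, v2, v3⟩ :=
    norm_eff p q Q hQ w u (one_le_pow₀ one_le_two) hw hl h0 hv
  rw [← hN] at hs v1 v2
  have b0 : 0 < A ^ N := by positivity
  have b1 : N ≤ A ^ N := Nat.lt_two_pow_self.le.trans (Nat.pow_le_pow_left hA N)
  have b2 : s * r ≤ A ^ N * A := Nat.mul_le_mul hs hr
  have b3 : A ^ N * 2 ≤ A ^ N * A := Nat.mul_le_mul_left _ hA
  have b4 : A ≤ A ^ N * A := Nat.le_mul_of_pos_left _ b0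
  have b5 : A ^ N * A * 2 ≤ A ^ (N + 2) := by
    rw [pow_succ, pow_succ]
    exact Nat.mul_le_mul_left _ hA
  generalize A ^ (N + 2) = a at *
  have ha : 4 ≤ a := by omega
  have n1 : 4 * a ≤ n := by
    refine le_trans ?_ ((Nat.pow_le_pow_right (by omega) (by omega : 2 ≤ _)).trans hn)
    rw [sq]
    exact Nat.mul_le_mul_right _ ha
  have n0 : 1 ≤ n := by omega
  have d1 := fun j => (v1 j).trans (st_deg ha (by omega) (by omega) (by omega) (by omega) n0)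
  have d2 : ∀ j, l1 (V j) ≤ ((2 ^ (a ^ 7 * n) : ℕ) : ℝ) := fun j => (v2 j).trans (by
    exact_mod_cast st_l1 (s := s) (N := N) (A := A) (r := r) ha (by omega) (by omega) (by omega)
      (by omega) n0)
  have g0 : ∑ j : Fin (s * r + 1), C (u ^ (j : ℕ)) * map (Int.castRingHom ℚ) (V j) ≠ 0 :=
    fun h => hj0 (MvPolynomial.ext _ _ fun ν => by
      have := congrArg (coeff ν) h
      rw [coeff_sum, coeff_zero] at this
      simp only [coeff_C_mul, coeff_map, eq_intCast] at this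
      exact congrFun (root_test hu' (fun j => coeff ν (V j))
        (fun j => (norm_coeff_le_l1 (V j) ν).trans (d2 j)) this) j0)
  obtain ⟨W, w0, w1, w2, w3⟩ := wronskN (by exact_mod_cast Nat.one_le_two_pow) V
    (Submodule.sum_mem _ fun j _ => by
      rw [← smul_eq_C_mul]
      exact Submodule.smul_mem _ _ (Submodule.subset_span ⟨j, rfl⟩)) g0 q d1 d2 v3
  rw [Fintype.card_fin] at w1 w2 w3
  have hc : s * r + 1 ≤ a := by omega
  generalize s * r + 1 = c at hc w1 w2 w3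
  have n4 : a ^ 9 * n ≤ a ^ 10 * ((n + 1) / 2 - c) :=
    calc a ^ 9 * n ≤ a ^ 9 * (a * ((n + 1) / 2 - c)) := Nat.mul_le_mul_left _
          ((by omega : n ≤ 4 * ((n + 1) / 2 - c)).trans (Nat.mul_le_mul_right _ ha))
      _ = _ := by ring
  have a2 : 2 ≤ a ^ 10 := le_trans (by omega) (Nat.le_self_pow (by norm_num) a)
  refine (hz d (a ^ 10) ((n + 1) / 2 - c) W q a2 (by omega) w0 (w1.trans (le_trans ?_ n4))
    (w2.trans ?_) w3).mono ?_
  · calc c * (a ^ 5 * n) ≤ a * (a ^ 5 * n) := Nat.mul_le_mul_right _ hc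
      _ = a ^ 6 * n := by ring
      _ ≤ _ := (st_pow ha n0 (by norm_num)).2.1
  · exact_mod_cast (st_wr ha hc n0).trans (Nat.pow_le_pow_right two_pos n4)
  · rw [← pow_mul]
    exact Nat.pow_le_pow_right (by omega) (by omega)

end Pool.Agent.Lib.MP_4ffbf9_nt.EF
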