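import Mathlib
import Pool.Agent.Lib.MP_4ffbf9_nt.EF.Amb
import Pool.Agent.Lib.MP_4ffbf9_nt.EF.Chain
import Pool.Agent.Lib.MP_4ffbf9_nt.EF.Step

set_option autoImplicit false

namespace Pool.Agent.Lib.MP_4ffbf9_nt.EF

open MvPolynomial Pool.Agent.Subspace Pool.Agent.Lib.MP_4ffbf9_nt.PR

theorem win_const (N : ℕ) : ∃ e : ℕ, ∀ J : ℕ, 2 ≤ J →
    J + 20 * (4 * (2 * N * (2 * J + 1)) ^ N) + 40 ≤ J ^ e := by
  refine ⟨80 * (6 * N) ^ N + 41 + (N + 1), fun J hJ => ?_⟩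
  have h1 : (2 * N * (2 * J + 1)) ^ N ≤ (6 * N) ^ N * J ^ (N + 1) := by
    refine le_trans ?_ (Nat.mul_le_mul_left _ (Nat.pow_le_pow_right (by omega) (Nat.le_succ N)))
    rw [← mul_pow]
    exact Nat.pow_le_pow_left (by nlinarith [Nat.mul_le_mul_left N hJ]) _
  have h2 : J ≤ J ^ (N + 1) := Nat.le_self_pow (by omega) _
  have h3 : 80 * (6 * N) ^ N + 41 ≤ J ^ (80 * (6 * N) ^ N + 41) :=
    Nat.lt_two_pow_self.le.trans (Nat.pow_le_pow_left hJ _)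
  rw [pow_add]
  refine le_trans ?_ (Nat.mul_le_mul_right _ h3)
  nlinarith

/-- The effective window theorem. -/
theorem window_eff (ι : Type) [Fintype ι] : ∃ κ : ℕ, 1 ≤ κ ∧
    ∀ (J n h : ℕ) (x : ι → ℕ) (e1 e2 e3 : ι →₀ ℕ) (a b c : ℕ), 2 ≤ J → J ^ κ ≤ n →
      2 ^ J ^ κ ≤ h → (∀ v, |(x v : ℝ) / h - 1| ^ J * h ≤ 1) →
      ∑ v, e1 v = n → ∑ v, e2 v = n → ∑ v, e3 v = n → 0 < b → 0 < c →
      b ^ J ^ κ ≤ h ^ n → c ^ J ^ κ ≤ h ^ n → Nat.gcd (mon x e2) (mon x e3) ^ J ^ κ ≤ h ^ n →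
      a * mon x e1 + b * mon x e2 ≠ c * mon x e3 := by
  obtain ⟨κ, hκ, hstep⟩ := step ι
  obtain ⟨e, he⟩ := win_const (Fintype.card ι)
  refine ⟨e * κ ^ (Fintype.card ι + 1) + 3, by omega,
    fun J n h x e1 e2 e3 a b c hJ hn hh hx he1 he2 he3 hb hc hbD hcD hG heq => ?_⟩
  have hC := he J hJ
  set k := 4 * (2 * Fintype.card ι * (2 * J + 1)) ^ Fintype.card ι with hk
  replace hk := hk.ge.trans (Nat.le_succ k)
  rw [pow_add J, pow_mul J] at hn hh hbD hcD hG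
  clear_value k
  generalize J ^ e = C0 at *
  obtain ⟨d, hd, t, ht, hv⟩ := chain (fun v => (x v : ℚ) / h)
    (fun d => C0 ^ κ ^ (Fintype.card ι + 1 - d)) fun d => Nat.one_le_pow _ _ (by omega)
  set A := C0 ^ κ ^ (Fintype.card ι + 1 - (d + 1)) with hA
  have hAκ : C0 ^ κ ^ (Fintype.card ι + 1 - d) = A ^ κ := by
    rw [hA, ← pow_mul, ← pow_succ]
    congr 2
    omega
  have hCA : C0 ≤ A := Nat.le_self_pow (pow_ne_zero _ (by omega)) _
  have hAA : A ≤ A ^ κ := Nat.le_self_pow (by omega) _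
  have hT : A ^ κ * 8 ≤ C0 ^ κ ^ (Fintype.card ι + 1) * J ^ 3 := by
    refine Nat.mul_le_mul (hAκ ▸ Nat.pow_le_pow_right (by omega)
      (Nat.pow_le_pow_right hκ (by omega))) (Nat.pow_le_pow_left hJ 3)
  generalize C0 ^ κ ^ (Fintype.card ι + 1) * J ^ 3 = T at *
  rw [hAκ] at ht
  clear_value A
  choose Q hQ using fun v => exists_good (fun h0 => ht (h0.mono hAA)) (hv v)
  have h2 : ∀ i, i ≤ T → 2 ^ i ≤ h := fun i hi => (Nat.pow_le_pow_right (by norm_num) hi).trans hh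
  have hm3 := mon_ge (by omega : 1 ≤ J) (h2 J (by omega)) hx he3
  have hm30 : 0 < mon x e3 := by
    rcases Nat.eq_zero_or_pos (mon x e3) with h5 | h5
    · rw [h5, mul_zero] at hm3
      exact absurd hm3 (not_le.2 (Nat.pow_pos (h2 0 (by omega))))
    · exact h5
  have hG4 : Nat.gcd (mon x e2) (mon x e3) ^ 4 ≤ h ^ n :=
    (Nat.pow_le_pow_right (Nat.gcd_pos_of_pos_right _ hm30) (by omega)).trans hG
  obtain ⟨w, w1, w2, w3, w4⟩ := amb_eff ι J k (by omega) hk n h a b c x e1 e2 e3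
    (by omega) (h2 _ (by omega)) hx he1 he2 he3 hc heq
    ((Nat.pow_le_pow_right hc (by omega)).trans hcD) hG4
  have hden := den_big (K := 2 ^ A ^ κ) (one_le_pow₀ one_le_two) (by omega : 1 ≤ n) hG4
    ((Nat.pow_le_pow_right hb (by omega)).trans hbD) hm3 (den_ge hb hc hm30 heq) (by
      have h3 : 4 * (2 ^ A ^ κ) ^ 2 < 2 ^ (2 * A ^ κ + 3) := by
        rw [pow_add, mul_comm 2, pow_mul]
        have : 0 < (2 ^ A ^ κ) ^ 2 := by positivity
        omega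
      exact_mod_cast h3.trans_le (h2 _ (by omega)))
  refine ht (hstep d A n _ _ _ Q w _ hd (by omega) (by omega) (by omega) hQ
    (fun l => (w1 l).trans (Nat.mul_le_mul_right _ (by omega)))
    (fun l => (w2 l).trans (pow_le_pow_right₀ one_le_two (Nat.mul_le_mul_right _ (by omega))))
    w3 w4 ?_)
  rw [pow_mul]
  exact_mod_cast hden

end Pool.Agent.Lib.MP_4ffbf9_nt.EF
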