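import Mathlib
import Pool.Agent.Lib.MP_4ffbf9_nt.EF.Win
import Pool.Agent.Lib.MP_4ffbf9_nt.PR.Win2

set_option autoImplicit false

namespace Pool.Agent.Lib.MP_4ffbf9_nt.EF

open MvPolynomial Pool.Agent.Subspace Pool.Agent.Lib.MP_4ffbf9_nt.PR

theorem w2_eff (T S : ℕ) {ε : ℝ} (hε : 0 < ε) {D n h t : ℕ} (hn : (2 * (T + S)) ^ 2 + 1 ≤ n)
    (hl : 4 ≤ Real.log h) (h0 : 0 < h) (hD : D ^ 2 ≤ n) (hL : (D : ℝ) ^ 2 ≤ Real.log h)
    (ht : (t : ℝ) ≤ T * Real.exp ((n : ℝ) ^ (1 - ε)) * (h : ℝ) ^ S) : t ^ D ≤ h ^ n := by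
  have hn1 : (1 : ℝ) ≤ n := by exact_mod_cast (by omega : 1 ≤ n)
  have hp : (n : ℝ) ^ (1 - ε) ≤ n := Real.rpow_le_self_of_one_le hn1 (by linarith)
  have h2 : 2 * (D : ℝ) ≤ Real.log h := by
    refine le_of_sq_le_sq ?_ (by linarith)
    nlinarith
  have h3 : (D : ℝ) * (2 * (T + S)) ≤ n := by
    have : D * (2 * (T + S)) ≤ n := by
      refine (Nat.pow_le_pow_iff_left two_ne_zero).1 ?_
      rw [mul_pow, sq n]
      exact Nat.mul_le_mul hD (by omega)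
    exact_mod_cast this
  have h4 : ∀ k : ℕ, (h : ℝ) ^ k = Real.exp (k * Real.log h) := fun k => by
    rw [Real.exp_nat_mul, Real.exp_log (by exact_mod_cast h0)]
  have h5 : (t : ℝ) ≤ Real.exp (T * Real.log h + n + S * Real.log h) := by
    refine ht.trans ?_
    rw [h4, Real.exp_add, Real.exp_add]
    gcongr
    nlinarith [Real.add_one_le_exp (T * Real.log h), Nat.cast_nonneg (α := ℝ) T]
  have h6 : (t : ℝ) ^ D ≤ (h : ℝ) ^ n := by
    refine (pow_le_pow_left₀ (by positivity) h5 D).trans ?_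
    rw [← Real.exp_nat_mul, h4, Real.exp_le_exp]
    nlinarith [mul_le_mul_of_nonneg_right h3 (by linarith : 0 ≤ Real.log h),
      mul_le_mul_of_nonneg_left h2 (by linarith : (0 : ℝ) ≤ n)]
  exact_mod_cast h6

/-- The effective window theorem in the words of the problem. -/
theorem win2_eff (R : ℕ) : ∃ κ : ℕ, 1 ≤ κ ∧ ∀ (A B C S : ℕ) (Q ε : ℝ), 0 < A → 0 < B → 0 < C →
    0 < ε → ∃ h2 n2 : ℕ, ∀ (J n h : ℕ) (a : Fin 3 → ℕ) (w m : Fin 3 → Fin R → ℕ),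
      n2 ≤ n → h2 ≤ h → 2 ≤ J → J ^ κ ≤ n → (J : ℝ) ^ κ ≤ Real.log h →
      Sol A B C R S Q ε n h a w m →
      ¬ ∀ k i, (h : ℝ) ≤ w k i + (h : ℝ) ^ (1 - 1 / (J : ℝ)) := by
  obtain ⟨κ, hκ, H⟩ := window_eff (Fin 3 × Fin R)
  refine ⟨κ * 2, by omega, fun A B C S Q ε hA hB hC hε => ⟨⌈Real.exp 4⌉₊ + 1,
    (2 * (B + C + A * ⌈Q⌉₊ + (S + R))) ^ 2 + 1, fun J n h a w m hn hh hJ hJn hJh hs hw => ?_⟩⟩
  set D := J ^ κ with hD
  rw [pow_mul] at hJn hJh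
  rw [← Nat.cast_pow, ← hD] at hJh
  have hl : 4 ≤ Real.log h := by
    rw [Real.le_log_iff_exp_le (by exact_mod_cast (by omega : 0 < h))]
    exact (Nat.le_ceil _).trans (by exact_mod_cast (by omega))
  have hp : ∀ t : ℕ, (t : ℝ) ≤ (B + C + A * ⌈Q⌉₊ : ℕ) * Real.exp ((n : ℝ) ^ (1 - ε)) *
      (h : ℝ) ^ (S + R) → t ^ D ≤ h ^ n := fun t => w2_eff _ _ hε hn hl (by omega) hJn hJh
  have hDD : D ≤ D ^ 2 := Nat.le_self_pow two_ne_zero D
  have hJ0 : (0 : ℝ) < J := by exact_mod_cast (by omega : 0 < J)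
  have hh1 : (1 : ℝ) ≤ h := by exact_mod_cast (by omega : 1 ≤ h)
  have hh0 : (0 : ℝ) < h := by linarith
  let e : Fin 3 → (Fin 3 × Fin R →₀ ℕ) := fun k =>
    Finsupp.equivFunOnFinite.symm fun v => if v.1 = k then m k v.2 else 0
  have he : ∀ k, ∑ v, e k v = n := fun k => by
    simp [e, Fintype.sum_prod_type, Finset.sum_ite_irrel, hs.deg]
  have hm : ∀ k, mon (fun v : Fin 3 × Fin R => w v.1 v.2) (e k) = ∏ i, w k i ^ m k i := fun k => by
    simp [mon, e, Fintype.prod_prod_type, Finset.prod_ite_irrel]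
  have hE : 1 ≤ Real.exp ((n : ℝ) ^ (1 - ε)) := Real.one_le_exp (by positivity)
  have hco : ∀ T k, T ≤ B + C + A * ⌈Q⌉₊ → (T * a k) ^ D ≤ h ^ n := fun T k hT => by
    refine hp _ ?_
    rw [Nat.cast_mul, mul_assoc]
    refine mul_le_mul (by exact_mod_cast hT) ((hs.a_le k).trans ?_) (by positivity) (by positivity)
    gcongr
    omega
  refine H J n h (fun v => w v.1 v.2) (e 0) (e 1) (e 2) (A * a 0) (B * a 1) (C * a 2) hJ
    (hDD.trans hJn) ?_ (fun v => ?_) (he 0) (he 1) (he 2)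
    (Nat.mul_pos hB (hs.a_pos 1)) (Nat.mul_pos hC (hs.a_pos 2)) (hco _ _ (by omega))
    (hco _ _ (by omega)) ?_ (by rw [hm, hm, hm, mul_assoc, mul_assoc, mul_assoc]; exact hs.eq)
  · have h1 : (2 : ℝ) ^ D ≤ h := by
      calc (2 : ℝ) ^ D ≤ Real.exp 1 ^ D := by
            gcongr
            linarith [Real.add_one_le_exp 1]
        _ = Real.exp D := by rw [← Real.exp_nat_mul, mul_one]
        _ ≤ h := (Real.le_log_iff_exp_le hh0).1 (le_trans (by exact_mod_cast hDD) hJh)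
    exact_mod_cast h1
  · have h1 : |(w v.1 v.2 : ℝ) / h - 1| ≤ (h : ℝ) ^ (-(1 / (J : ℝ))) := by
      have h2 : (w v.1 v.2 : ℝ) ≤ h := by exact_mod_cast hs.w_le v.1 v.2
      have h3 := hw v.1 v.2
      rw [sub_eq_add_neg 1, Real.rpow_add hh0, Real.rpow_one] at h3
      rw [div_sub_one hh0.ne', abs_div, abs_of_pos hh0, div_le_iff₀ hh0, abs_sub_comm,
        abs_of_nonneg (by linarith)]
      linarith
    calc _ ≤ ((h : ℝ) ^ (-(1 / (J : ℝ)))) ^ J * h := by gcongr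
      _ = 1 := by
        rw [← Real.rpow_mul_natCast hh0.le, neg_mul, one_div_mul_cancel hJ0.ne',
          Real.rpow_neg_one, inv_mul_cancel₀ hh0.ne']
  · rw [hm, hm]
    refine hp _ ?_
    have g1 := Nat.gcd_dvd_left (∏ i, w 1 i ^ m 1 i) (∏ i, w 2 i ^ m 2 i)
    have g2 := Nat.gcd_dvd_right (∏ i, w 1 i ^ m 1 i) (∏ i, w 2 i ^ m 2 i)
    have hg := w2_gcd (W := ∏ i, w 1 i) (n := n) hA
      (Nat.mul_pos (hs.a_pos 1) (Finset.prod_pos fun i _ => pow_pos (hs.w_pos 1 i) _))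
      (Finset.prod_pos fun i _ => hs.w_pos 1 i) (by omega) hs.gcd
      ((Nat.dvd_add_left ((g1.mul_left _).mul_left B)).1
        (hs.eq ▸ (g2.mul_left _).mul_left C)) (g1.mul_left _) (g1.trans (by
          rw [← Finset.prod_pow]
          exact Finset.prod_dvd_prod_of_dvd _ _ fun i _ => pow_dvd_pow _
            (hs.deg 1 ▸ Finset.single_le_sum (fun _ _ => Nat.zero_le _) (Finset.mem_univ i))))
    have hW : ∏ i, w 1 i ≤ h ^ (S + R) :=
      (Finset.prod_le_pow_card _ _ h fun i _ => hs.w_le 1 i).trans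
        (Nat.pow_le_pow_right (by omega) (by simp))
    have hg' : Nat.gcd (∏ i, w 1 i ^ m 1 i) (∏ i, w 2 i ^ m 2 i) ≤
        (B + C + A * ⌈Q⌉₊) * h ^ (S + R) := hg.trans (Nat.mul_le_mul (by omega) hW)
    calc _ ≤ (((B + C + A * ⌈Q⌉₊ : ℕ) : ℝ) * 1) * (h : ℝ) ^ (S + R) := by
          rw [mul_one]
          exact_mod_cast hg'
      _ ≤ _ := by gcongr

end Pool.Agent.Lib.MP_4ffbf9_nt.EF
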