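import Mathlib
import Pool.Agent.Lib.MP_4ffbf9_nt.EF.Win2
import Pool.Agent.Lib.MP_4ffbf9_nt.EF.Close

set_option autoImplicit false

namespace Pool.Agent.Lib.MP_4ffbf9_nt.EF

open MvPolynomial Pool.Agent.Subspace Pool.Agent.Lib.MP_4ffbf9_nt.PR

theorem core_level {κ : ℕ} {d μ : ℝ} (hd : 0 < d) (hdκ : d * ((4 * κ : ℕ) : ℝ) = 1)
    (hμ : (2 : ℝ) ^ (4 * κ) ≤ μ) : ∃ J : ℕ, 2 ≤ J ∧ (J : ℝ) ^ κ ≤ μ ∧
      1 / (J : ℝ) ≤ μ ^ (-(2 * d)) / 2 ∧ μ ^ (3 * d) ≤ J := by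
  have h0 : 0 < μ := lt_of_lt_of_le (by positivity) hμ
  obtain ⟨s, hs⟩ : ∃ s : ℝ, s = μ ^ d := ⟨_, rfl⟩
  have hp : ∀ j : ℕ, μ ^ ((j : ℝ) * d) = s ^ j := fun j => by
    rw [mul_comm, Real.rpow_mul_natCast h0.le, hs]
  have hall : s ^ (4 * κ) = μ := by rw [← hp, mul_comm, hdκ, Real.rpow_one]
  have s2 : 2 ≤ s := by
    have h1 := Real.rpow_le_rpow (by positivity) hμ hd.le
    rwa [← Real.rpow_natCast, ← Real.rpow_mul (by norm_num), mul_comm, hdκ, Real.rpow_one,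
      ← hs] at h1
  have hJ1 : (⌊s ^ 4⌋₊ : ℝ) ≤ s ^ 4 := Nat.floor_le (by positivity)
  have hJ2 : s ^ 4 < (⌊s ^ 4⌋₊ : ℝ) + 1 := Nat.lt_floor_add_one _
  have q2 : 4 ≤ s ^ 2 := by nlinarith
  have q3 : 8 ≤ s ^ 3 := by nlinarith
  have a2 : 2 * s ^ 2 ≤ (⌊s ^ 4⌋₊ : ℝ) := by nlinarith
  have a3 : s ^ 3 ≤ (⌊s ^ 4⌋₊ : ℝ) := by nlinarith
  refine ⟨⌊s ^ 4⌋₊, ?_, ?_, ?_, ?_⟩
  · have : (2 : ℝ) ≤ (⌊s ^ 4⌋₊ : ℝ) := by linarith
    exact_mod_cast this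
  · rw [← hall, pow_mul]
    exact pow_le_pow_left₀ (Nat.cast_nonneg _) hJ1 κ
  · have e : μ ^ (2 * d) = s ^ 2 := by exact_mod_cast hp 2
    rw [Real.rpow_neg h0.le, e, inv_eq_one_div, div_div, mul_comm]
    exact one_div_le_one_div_of_le (by positivity) a2
  · have e : μ ^ (3 * d) = s ^ 3 := by exact_mod_cast hp 3
    rwa [e]

theorem core_log {x c : ℝ} (hx : 65536 ≤ x) (hc : c ≤ 1 / 2) : 4 * Real.log x ≤ x ^ (1 - c) := by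
  have h0 : 0 < x := by linarith
  have h1 := Real.log_le_rpow_div h0.le (show (0 : ℝ) < 1 / 4 by norm_num)
  have h2 : (16 : ℝ) ≤ x ^ (1 / 4 : ℝ) := by
    have h3 := Real.rpow_le_rpow (by norm_num) hx (show (0 : ℝ) ≤ 1 / 4 by norm_num)
    have e : (65536 : ℝ) ^ (1 / 4 : ℝ) = 16 := by
      rw [show (65536 : ℝ) = 16 ^ (4 : ℝ) by norm_num, ← Real.rpow_mul (by norm_num)]
      norm_num
    rwa [e] at h3
  have h3 : x ^ (1 / 4 : ℝ) * x ^ (1 / 4 : ℝ) ≤ x ^ (1 - c) := by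
    rw [← Real.rpow_add h0]
    exact Real.rpow_le_rpow_of_exponent_le (by linarith) (by linarith)
  nlinarith

/-- Equal degrees. -/
theorem core_eff (R : ℕ) : ∃ c : ℝ, 0 < c ∧ c ≤ 1 ∧ ∀ (A B C S : ℕ) (Q M ε : ℝ), 0 < A → 0 < B →
    0 < C → 0 < ε → ε ≤ 1 / 2 → ∃ n0 : ℕ,
    ∀ (n l h : ℕ) (a : Fin 3 → ℕ) (w m : Fin 3 → Fin R → ℕ),
      n0 ≤ n → Sol A B C R S Q ε n h a w m → 2 ^ n ≤ ∏ k, (a k * ∏ i, w k i ^ m k i) →
      (∃ k i, w k i = h) → (∀ k i j, (w k i : ℝ) ≤ w k j + M * (h : ℝ) ^ (1 - ε)) →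
      (∀ k i, l ≤ w k i) → 3 ≤ h ∧
      (n : ℝ) ^ 2 * (h : ℝ) ^ (1 - min (n : ℝ) (Real.log h) ^ (-c)) < (h : ℝ) - l := by
  obtain ⟨κ, hκ, hw⟩ := win2_eff R
  have hκ1 : (4 : ℝ) ≤ ((4 * κ : ℕ) : ℝ) := by exact_mod_cast (by omega : 4 ≤ 4 * κ)
  obtain ⟨d, hdd⟩ : ∃ d : ℝ, d = 1 / ((4 * κ : ℕ) : ℝ) := ⟨_, rfl⟩
  have hd0 : 0 < d := by rw [hdd]; exact one_div_pos.2 (by linarith)
  have hd : d ≤ 1 / 4 := by rw [hdd]; exact one_div_le_one_div_of_le (by norm_num) hκ1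
  have hdκ : d * ((4 * κ : ℕ) : ℝ) = 1 := by rw [hdd]; exact one_div_mul_cancel (by linarith)
  refine ⟨2 * d, by linarith, by linarith, fun A B C S Q M ε hA hB hC hε hε2 => ?_⟩
  obtain ⟨h2, n2, hw⟩ := hw A B C S Q ε hA hB hC hε
  obtain ⟨h1, hc⟩ := close_eff A B C R S Q M ε (1 - 3 * d) (1 - 2 * d) hA hB hC hε hε2
    (by linarith) (by linarith) (by linarith)
  obtain ⟨n4, hb⟩ := bdd A B C R S Q ε hA hB hC hε (h1 + h2 + ⌈Real.exp (2 ^ (4 * κ))⌉₊ + 3)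
  refine ⟨n2 + n4 + 2 ^ (4 * κ) + 65536, fun n l h a w m hn hs h2n hh hM hl => ?_⟩
  have hp2 : 0 < 2 ^ (4 * κ) := by positivity
  have hbd : h1 + h2 + ⌈Real.exp (2 ^ (4 * κ))⌉₊ + 3 < h := by
    by_contra hbd
    exact absurd (hb n h a w m (by omega) (not_lt.1 hbd) hs) (not_lt.2 h2n)
  refine ⟨by omega, ?_⟩
  by_contra hcon
  rw [not_lt] at hcon
  have h1' : (1 : ℝ) ≤ h := by exact_mod_cast (by omega : 1 ≤ h)
  have h0 : (0 : ℝ) < h := by linarith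
  have hn1 : (65536 : ℝ) ≤ n := by exact_mod_cast (by omega : 65536 ≤ n)
  have hnκ : (2 : ℝ) ^ (4 * κ) ≤ n := by exact_mod_cast (by omega : 2 ^ (4 * κ) ≤ n)
  have hhκ : (2 : ℝ) ^ (4 * κ) ≤ Real.log h := by
    rw [Real.le_log_iff_exp_le h0]
    exact (Nat.le_ceil _).trans (Nat.cast_le.2 (by omega))
  have hL : 0 < Real.log h := lt_of_lt_of_le (by positivity) hhκ
  obtain ⟨J, hJ2, hJκ, hJδ, hJ3⟩ := core_level hd0 hdκ (le_min hnκ hhκ)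
  have hJ0 : (0 : ℝ) < J := by exact_mod_cast (by omega : 0 < J)
  refine hw J n h a w m (by omega) (by omega) hJ2
    (by exact_mod_cast hJκ.trans (min_le_left _ _)) (hJκ.trans (min_le_right _ _)) hs
    fun k i => ?_
  obtain ⟨δ, hδ⟩ : ∃ δ : ℝ, δ = min (n : ℝ) (Real.log h) ^ (-(2 * d)) := ⟨_, rfl⟩
  rw [← hδ] at hcon hJδ
  by_cases hbig : (n : ℝ) ^ 2 ≤ (h : ℝ) ^ (δ / 2)
  · have h5 : (l : ℝ) ≤ w k i := by exact_mod_cast hl k i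
    have h6 := mul_le_mul_of_nonneg_right hbig (Real.rpow_nonneg h0.le (1 - δ))
    rw [← Real.rpow_add h0] at h6
    have h7 : (h : ℝ) ^ (δ / 2 + (1 - δ)) ≤ (h : ℝ) ^ (1 - 1 / (J : ℝ)) :=
      Real.rpow_le_rpow_of_exponent_le h1' (by linarith)
    linarith
  have h5 := Real.log_lt_log (Real.rpow_pos_of_pos h0 _) (not_le.1 hbig)
  rw [Real.log_rpow h0, Real.log_pow] at h5
  push_cast at h5
  rcases le_total (n : ℝ) (Real.log h) with hm | hm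
  · rw [min_eq_left hm] at hδ
    have h6 := core_log hn1 (show 2 * d ≤ 1 / 2 by linarith)
    rw [sub_eq_add_neg, Real.rpow_add (by linarith), Real.rpow_one, ← hδ] at h6
    have h7 : 0 ≤ δ := by rw [hδ]; positivity
    nlinarith
  rw [min_eq_right hm] at hδ hJ3
  have h6 : Real.log h ^ (1 - 2 * d) ≤ 4 * Real.log n := by
    rw [sub_eq_add_neg, Real.rpow_add hL, Real.rpow_one, ← hδ]
    linarith
  have h7 : 1 / (J : ℝ) * Real.log h ≤ Real.log h ^ (1 - 3 * d) := by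
    rw [Real.rpow_sub hL, Real.rpow_one, one_div_mul_eq_div]
    exact div_le_div_of_nonneg_left hL.le (Real.rpow_pos_of_pos hL _) hJ3
  have h8 : (h : ℝ) * Real.exp (-(Real.log h ^ (1 - 3 * d))) ≤ (h : ℝ) ^ (1 - 1 / (J : ℝ)) := by
    rw [sub_eq_add_neg 1 (1 / (J : ℝ)), Real.rpow_add h0, Real.rpow_one, Real.rpow_def_of_pos h0]
    exact mul_le_mul_of_nonneg_left (Real.exp_le_exp.2 (by linarith)) h0.le
  linarith [hc n h a w m (by omega) h6 hs hh hM k i]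

end Pool.Agent.Lib.MP_4ffbf9_nt.EF
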