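import Mathlib
import Pool.Agent.Lib.MP_4ffbf9_nt.EF.Core

set_option autoImplicit false

namespace Pool.Agent.Lib.MP_4ffbf9_nt.EF

open MvPolynomial Pool.Agent.Subspace Pool.Agent.Lib.MP_4ffbf9_nt.PR

theorem fin_mono {n x y c : ℝ} (hn : 0 < n) (hx : 0 < x) (hxy : x ≤ y) (hc : c ≤ 1) :
    x * min n x ^ (-c) ≤ y * min n y ^ (-c) := by
  have hy : 0 < y := hx.trans_le hxy
  have e : ∀ z : ℝ, 0 < z → z * z ^ (-c) = z ^ (1 - c) := fun z hz => by
    rw [sub_eq_add_neg, Real.rpow_add hz, Real.rpow_one]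
  rcases le_total n x with h | h
  · rw [min_eq_left h, min_eq_left (h.trans hxy)]
    gcongr
  rw [min_eq_right h, e x hx]
  rcases le_total n y with h' | h'
  · rw [min_eq_left h']
    refine (Real.rpow_le_rpow hx.le h (by linarith)).trans ?_
    rw [← e n hn]
    gcongr
  · rw [min_eq_right h', e y hy]
    exact Real.rpow_le_rpow hx.le hxy (by linarith)

theorem gap_eff {n k l h H c : ℝ} (hk : 1 ≤ k) (hn0 : 0 < n) (hn : n ≤ k ^ 2) (hl : 0 ≤ l)
    (hh : 3 ≤ h) (hH : h ≤ H) (hc0 : 0 < c) (hc1 : c ≤ 1)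
    (hc : k ^ 2 * h ^ (1 - min k (Real.log h) ^ (-c)) < h - l) :
    n * H ^ (1 - min n (Real.log H) ^ (-(c / 2))) < H - l := by
  have h0 : 0 < h := by linarith
  have H0 : 0 < H := by linarith
  have x1 : 1 ≤ Real.log h := by
    rw [Real.le_log_iff_exp_le h0]
    linarith [Real.exp_one_lt_three]
  have e1 : ∀ y : ℝ, 0 < y → ∀ s : ℝ, y ^ (1 - s) = y * (Real.exp (Real.log y * s))⁻¹ :=
    fun y hy s => by
      rw [sub_eq_add_neg, Real.rpow_add hy, Real.rpow_one, Real.rpow_neg hy.le,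
        Real.rpow_def_of_pos hy]
  have m1 : 1 ≤ min k (Real.log h) := le_min hk x1
  have m2 : min n (Real.log h) ≤ min k (Real.log h) ^ 2 := by
    rcases le_total k (Real.log h) with h1 | h1
    · rw [min_eq_left h1]
      exact (min_le_left _ _).trans hn
    · rw [min_eq_right h1]
      exact (min_le_right _ _).trans (by nlinarith)
  have m3 : min k (Real.log h) ^ (-c) ≤ min n (Real.log h) ^ (-(c / 2)) := by
    refine le_trans (le_of_eq ?_)
      (Real.rpow_le_rpow_of_nonpos (lt_min hn0 (by linarith)) m2 (by linarith))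
    rw [← Real.rpow_natCast, ← Real.rpow_mul (by linarith)]
    congr 1
    push_cast
    ring
  have m4 : Real.log h * min k (Real.log h) ^ (-c) ≤
      Real.log H * min n (Real.log H) ^ (-(c / 2)) :=
    (mul_le_mul_of_nonneg_left m3 (by linarith)).trans
      (fin_mono hn0 (by linarith) (Real.log_le_log h0 hH) (by linarith))
  rw [e1 h h0] at hc
  rw [e1 H H0]
  have h1 := inv_anti₀ (Real.exp_pos _) (Real.exp_le_exp.mpr m4)
  set t := (Real.exp (Real.log h * min k (Real.log h) ^ (-c)))⁻¹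
  set s := (Real.exp (Real.log H * min n (Real.log H) ^ (-(c / 2))))⁻¹
  have s0 : 0 < s := inv_pos.mpr (Real.exp_pos _)
  have h2 : n * s ≤ k ^ 2 * t := by gcongr
  have h3 : k ^ 2 * t < 1 := by nlinarith
  nlinarith

/-- Theorem E. -/
theorem final_eff (R : ℕ) : ∃ c : ℝ, 0 < c ∧ ∀ (A B C : ℕ) (Q M ε : ℝ), 0 < A → 0 < B → 0 < C →
    0 < ε → ∃ n₀ : ℕ,
    ∀ (n l h : ℕ) (W g a : Fin 3 → ℕ) (x : (k : Fin 3) → Fin (g k * n) → ℕ), n₀ ≤ n →
      A * W 0 + B * W 1 = C * W 2 →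
      (Nat.gcd (W 0) (W 1) : ℝ) / (∏ p ∈ (Nat.gcd (W 0) (W 1)).primeFactors, (p : ℝ)) ≤ Q →
      2 ^ n ≤ W 0 * W 1 * W 2 →
      (∀ k, W k = a k * ∏ i, x k i ∧ 0 < g k ∧ g k ≤ R ∧ 0 < a k ∧
        (a k : ℝ) ≤ Real.exp ((n : ℝ) ^ (1 - ε)) ∧ (Finset.univ.image (x k)).card ≤ R ∧
        (∀ i, 0 < x k i ∧ l ≤ x k i ^ g k ∧ x k i ^ g k ≤ h) ∧
        ∀ i j, (x k i : ℝ) ≤ x k j + M * (x k j : ℝ) ^ (1 - ε)) →
      (n : ℝ) * (h : ℝ) ^ (1 - min (n : ℝ) (Real.log h) ^ (-c)) < (h : ℝ) - l := by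
  obtain ⟨c, hc0, hc1, hcore⟩ := core_eff R
  refine ⟨c / 2, by linarith, fun A B C Q M ε hA hB hC hε => ?_⟩
  rcases Nat.eq_zero_or_pos R with rfl | hR
  · exact ⟨0, fun n l h W g a x _ _ _ _ hk => by
      obtain ⟨-, h1, h2, -⟩ := hk 0
      omega⟩
  have hR' : (1 : ℝ) ≤ R := by exact_mod_cast hR
  obtain ⟨e, he0, he, he1⟩ : ∃ e : ℝ, 0 < e ∧ e ≤ ε ∧ e ≤ 1 / 2 :=
    ⟨min ε (1 / 2), lt_min hε (by norm_num), min_le_left _ _, min_le_right _ _⟩
  obtain ⟨δ, hδ0, hδ⟩ : ∃ δ : ℝ, 0 < δ ∧ δ * (2 * R) = e :=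
    ⟨e / (2 * R), by positivity, by field_simp⟩
  have hδ2 : 2 * δ ≤ e := by nlinarith
  obtain ⟨n0, hcore⟩ := hcore A B C (R * R) Q (R * |M|) δ hA hB hC hδ0 (by linarith)
  obtain ⟨n1, hn1⟩ := exists_rpow_shift R he (by linarith : δ < e) hδ0.le (by linarith)
  refine ⟨n0 + n1 + 2 * R + 2, fun n l h W g a x hn heq hgcd h2n hk => ?_⟩
  choose hW hg hgR ha hae hcard hx hM using hk
  choose v m r hv hm hr hprod using fun k => group_factors (hg k) (by omega : R < n) (x k) (hcard k)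
  choose j hj using hv
  have : Nonempty (Fin R) := ⟨⟨0, hR⟩⟩
  obtain ⟨⟨k0, i0⟩, -, hmax⟩ := Finset.exists_max_image (Finset.univ : Finset (Fin 3 × Fin R))
    (fun p => v p.1 p.2 ^ g p.1) Finset.univ_nonempty
  set h' := v k0 i0 ^ g k0 with hh'
  have hle : ∀ k i, v k i ^ g k ≤ h' := fun k i => hmax (k, i) (Finset.mem_univ _)
  have hv0 : ∀ k i, 0 < v k i := fun k i => hj k i ▸ (hx k _).1
  have hh0 : 0 < h' := pow_pos (hv0 _ _) _
  have hWk : ∀ k, W k = a k * (∏ i, v k i ^ r k i) * ∏ i, (v k i ^ g k) ^ m k i := fun k => by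
    rw [hW k, hprod k, mul_assoc]
  have hsol : Sol A B C R (R * R) Q δ (n - R) h' (fun k => a k * ∏ i, v k i ^ r k i)
      (fun k i => v k i ^ g k) m := by
    refine ⟨?_, ?_, fun k => ?_, fun k => ?_, hm, fun k i => pow_pos (hv0 k i) _, hle⟩
    · simpa only [← hWk] using heq
    · simpa only [← hWk, GcdOk] using hgcd
    · exact Nat.mul_pos (ha k) (Finset.prod_pos fun i _ => pow_pos (hv0 k i) _)
    · rw [Nat.cast_mul]
      refine mul_le_mul ((hae k).trans (Real.exp_le_exp.mpr (hn1 n (by omega)))) ?_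
        (by positivity) (by positivity)
      have h1 : ∏ i, v k i ^ r k i ≤ h' ^ (R * R) :=
        calc ∏ i, v k i ^ r k i ≤ ∏ i, h' ^ r k i := Finset.prod_le_prod' fun i _ =>
              Nat.pow_le_pow_left ((Nat.le_self_pow (hg k).ne' _).trans (hle k i)) _
          _ = h' ^ (g k * R) := by rw [Finset.prod_pow_eq_pow_sum, hr]
          _ ≤ _ := Nat.pow_le_pow_right hh0 (Nat.mul_le_mul_right _ (hgR k))
      exact_mod_cast h1
  have hc := hcore (n - R) l h' _ _ m (by omega) hsol (by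
      simp only [← hWk]
      rw [Fin.prod_univ_three]
      exact (Nat.pow_le_pow_right (by norm_num) (Nat.sub_le _ _)).trans h2n) ⟨k0, i0, rfl⟩
    (fun k i i' => pow_window (hg k) (hgR k) (hv0 k i') (hle k i) he (by linarith) he0.le
      (by nlinarith) (by rw [hj, hj]; exact hM k _ _))
    (fun k i => hj k i ▸ (hx k _).2.1)
  have h3 : h' ≤ h := by rw [hh', hj]; exact (hx k0 _).2.2
  have h4 : n ≤ (n - R) ^ 2 :=
    (by omega : n ≤ 2 * (n - R)).trans (by rw [sq]; exact Nat.mul_le_mul_right _ (by omega))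
  exact gap_eff (k := ((n - R : ℕ) : ℝ)) (by exact_mod_cast (by omega : 1 ≤ n - R))
    (by exact_mod_cast (by omega : 0 < n)) (by exact_mod_cast h4) (Nat.cast_nonneg _)
    (by exact_mod_cast hc.1) (by exact_mod_cast h3) hc0 hc1 hc.2

end Pool.Agent.Lib.MP_4ffbf9_nt.EF
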